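import Pool.Agent.SSE.Targets
import Pool.Agent.SSC.ASM

/-!
# AS2: all killed tuples (adapted from `SSC.ASM`)
-/

set_option autoImplicit false

open scoped BigOperators Classical
open Finset

namespace SSE

open SSC

namespace AS2_

/-- splitting a sum over a finite set of primes at `z` and `w` -/
theorem split_sum {I : Finset ℕ} {S : Set ℕ} {f X X' : ℕ → ℝ} {z w v c₂ : ℝ}
    (hI : ∀ p ∈ I, p ∈ S ∧ 1 ≤ p ∧ (p : ℝ) ≤ v) (hX : ∀ p ∈ S, 0 ≤ X p) (hX' : ∀ p ∈ S, 0 ≤ X' p)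
    (hc₂ : 0 ≤ c₂)
    (h1 : ∀ p ∈ I, (p : ℝ) ≤ z → f p ≤ X p)
    (h2 : ∀ p ∈ I, z < (p : ℝ) → (p : ℝ) ≤ w → f p ≤ X' p)
    (h3 : ∀ p ∈ I, z < (p : ℝ) → w < (p : ℝ) → f p ≤ c₂) :
    ∑ p ∈ I, f p ≤ (∑ p ∈ (Icc 1 ⌊z⌋₊).filter (fun p : ℕ => p ∈ S), X p) +
      (∑ p ∈ (Icc 1 ⌊w⌋₊).filter (fun p : ℕ => p ∈ S ∧ z < (p : ℝ)), X' p) +
      c₂ * NS S v := by
  have e1 : ∑ p ∈ I, f p = ∑ p ∈ I.filter (fun p : ℕ => (p : ℝ) ≤ z), f p +
      (∑ p ∈ (I.filter (fun p : ℕ => ¬ (p : ℝ) ≤ z)).filter (fun p : ℕ => (p : ℝ) ≤ w), f p +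
      ∑ p ∈ (I.filter (fun p : ℕ => ¬ (p : ℝ) ≤ z)).filter (fun p : ℕ => ¬ (p : ℝ) ≤ w), f p) := by
    rw [Finset.sum_filter_add_sum_filter_not, Finset.sum_filter_add_sum_filter_not]
  rw [e1, add_assoc]
  apply add_le_add
  · calc ∑ p ∈ I.filter (fun p : ℕ => (p : ℝ) ≤ z), f p
        ≤ ∑ p ∈ I.filter (fun p : ℕ => (p : ℝ) ≤ z), X p := by
          apply Finset.sum_le_sum
          intro p hp
          exact h1 p (Finset.mem_filter.1 hp).1 (Finset.mem_filter.1 hp).2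
      _ ≤ ∑ p ∈ (Icc 1 ⌊z⌋₊).filter (fun p : ℕ => p ∈ S), X p := by
          apply Finset.sum_le_sum_of_subset_of_nonneg
          · intro p hp
            obtain ⟨hp1, hp2⟩ := Finset.mem_filter.1 hp
            refine Finset.mem_filter.2 ⟨Finset.mem_Icc.2 ⟨(hI p hp1).2.1, Nat.le_floor hp2⟩,
              (hI p hp1).1⟩
          · intro p hp _
            exact hX p (Finset.mem_filter.1 hp).2
  · apply add_le_add
    · calc ∑ p ∈ (I.filter (fun p : ℕ => ¬ (p : ℝ) ≤ z)).filter (fun p : ℕ => (p : ℝ) ≤ w), f p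
          ≤ ∑ p ∈ (I.filter (fun p : ℕ => ¬ (p : ℝ) ≤ z)).filter
              (fun p : ℕ => (p : ℝ) ≤ w), X' p := by
            apply Finset.sum_le_sum
            intro p hp
            obtain ⟨hp1, hp2⟩ := Finset.mem_filter.1 hp
            obtain ⟨hp3, hp4⟩ := Finset.mem_filter.1 hp1
            exact h2 p hp3 (not_le.1 hp4) hp2
        _ ≤ ∑ p ∈ (Icc 1 ⌊w⌋₊).filter (fun p : ℕ => p ∈ S ∧ z < (p : ℝ)), X' p := by
            apply Finset.sum_le_sum_of_subset_of_nonneg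
            · intro p hp
              obtain ⟨hp1, hp2⟩ := Finset.mem_filter.1 hp
              obtain ⟨hp3, hp4⟩ := Finset.mem_filter.1 hp1
              exact Finset.mem_filter.2 ⟨Finset.mem_Icc.2 ⟨(hI p hp3).2.1, Nat.le_floor hp2⟩,
                (hI p hp3).1, not_le.1 hp4⟩
            · intro p hp _
              exact hX' p (Finset.mem_filter.1 hp).2.1
    · calc ∑ p ∈ (I.filter (fun p : ℕ => ¬ (p : ℝ) ≤ z)).filter (fun p : ℕ => ¬ (p : ℝ) ≤ w), f p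
          ≤ ∑ _p ∈ (I.filter (fun p : ℕ => ¬ (p : ℝ) ≤ z)).filter
              (fun p : ℕ => ¬ (p : ℝ) ≤ w), c₂ := by
            apply Finset.sum_le_sum
            intro p hp
            obtain ⟨hp1, hp2⟩ := Finset.mem_filter.1 hp
            obtain ⟨hp3, hp4⟩ := Finset.mem_filter.1 hp1
            exact h3 p hp3 (not_le.1 hp4) (not_le.1 hp2)
        _ = c₂ * (((I.filter (fun p : ℕ => ¬ (p : ℝ) ≤ z)).filter
              (fun p : ℕ => ¬ (p : ℝ) ≤ w)).card : ℝ) := by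
            rw [Finset.sum_const, nsmul_eq_mul, mul_comm]
        _ ≤ c₂ * NS S v := by
            apply mul_le_mul_of_nonneg_left _ hc₂
            apply SSC.ASM_.card_le_NS
            intro p hp
            obtain ⟨hp1, hp2⟩ := Finset.mem_filter.1 hp
            have := hI p (Finset.mem_filter.1 hp1).1
            exact ⟨this.1, this.2.2⟩

theorem em_nonneg (A : Finset ℕ) (m : ℕ) : 0 ≤ em A m := by
  unfold em
  apply Finset.sum_nonneg
  intro T _
  apply Finset.prod_nonneg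
  intro l _
  positivity

theorem RR_nonneg (S : Set ℕ) (Y : ℝ) : 0 ≤ RR S Y :=
  Finset.sum_nonneg fun a _ => Nat.cast_nonneg a

theorem err_nonneg (S : Set ℕ) {Y z : ℝ} (Z : ℝ) (m : ℕ) (hY : 1 ≤ Y) (hz : 0 < z) :
    0 ≤ err S Y z Z m := by
  have hL : 0 ≤ Real.log Y := Real.log_nonneg hY
  have h1 := em_nonneg (LL S z Z) m
  have h2 := em_nonneg (LL S z Z) (m - 1)
  have h3 := RR_nonneg S Y
  unfold err
  positivity

end AS2_

open AS2_

theorem p_AS2 (h1 : SSC.T_TUP) (h2 : SSC.T_KIL) (h3 : T_KT2) : T_AS2 := by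
  intro S K M ρ ε Y z Z m hD hY hz hzZ hZm hε hkill
  obtain ⟨hM, hρ1, hρ2, hS, -, hBin⟩ := id hD
  have hSp : ∀ p ∈ S, p.Prime := fun p hp => (hS p hp).1
  have hZ1 : (1 : ℝ) ≤ Z := by linarith
  have hZm' : Z ^ m ≤ Y / 16 := (pow_le_pow_right₀ hZ1 (Nat.le_succ m)).trans hZm
  obtain ⟨hT1, hT2, -⟩ := h1 S M ρ Y z Z m hSp hM hρ1 hρ2 hY (by linarith) hzZ hZm'
  have hY1 : (1 : ℝ) ≤ Y := by linarith
  have hT0 : (1 : ℝ) ≤ 2 * Y ^ 2 := by nlinarith
  have hL : 0 ≤ Real.log Y := Real.log_nonneg hY1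
  have hc : (0 : ℝ) ≤ (4 * Real.log Y) ^ m := by positivity
  have hz0 : 0 < z := by linarith
  have hkil := fun (p : ℕ) (hp : p ∈ S) => h2 p {D : ℕ | Adm M ρ D ∧ K D p} (hSp p hp) (hS p hp).2
    (fun D hD => SSC.ASM_.adm_pos hD.1) (hBin p hp) (2 * Y ^ 2) hT0
  choose! pf hpf using hkill
  -- the fibers
  have hfib : ∀ p ∈ (UU S M ρ Y z Z m).image pf,
      (((UU S M ρ Y z Z m).filter fun t => pf t = p).card : ℝ) ≤
        NS {D : ℕ | Adm M ρ D ∧ K D p} (2 * Y ^ 2) * (4 * Real.log Y) ^ m := by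
    intro p _
    apply SSC.ASM_.card_tuples hc
    · intro t ht
      obtain ⟨ht1, ht2⟩ := Finset.mem_filter.1 ht
      obtain ⟨ha, -, hle, -, -⟩ := hT1 t ht1
      have := (hpf t ht1).2.2.1
      rw [ht2] at this
      exact ⟨⟨ha, this⟩, hle⟩
    · intro D
      refine le_trans ?_ (hT2 D)
      have : (((UU S M ρ Y z Z m).filter fun t => pf t = p).filter fun t => dd t = D).card ≤
          ((UU S M ρ Y z Z m).filter fun t => dd t = D).card := by
        apply Finset.card_le_card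
        intro t ht
        obtain ⟨ht1, ht2⟩ := Finset.mem_filter.1 ht
        exact Finset.mem_filter.2 ⟨(Finset.mem_filter.1 ht1).1, ht2⟩
      exact_mod_cast this
  rw [Finset.card_eq_sum_card_image pf (UU S M ρ Y z Z m)]
  push_cast
  have hmem : ∀ p ∈ (UU S M ρ Y z Z m).image pf, p ∈ S ∧ 1 ≤ p ∧
      (p : ℝ) ≤ Real.exp ((2 * Y ^ 2) ^ (1 / 2 + ε)) := by
    intro p hp
    obtain ⟨t, ht, rfl⟩ := Finset.mem_image.1 hp
    have h := hpf t ht
    exact ⟨h.1, (hSp _ h.1).one_lt.le, h.2.2.2⟩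
  apply split_sum hmem
  · intro p _
    have e1 := err_nonneg S Z m hY1 hz0
    have e2 := RR_nonneg S Y
    have e3 := em_nonneg ((LL S z Z).filter fun l => SSN.ch p l = 1) m
    positivity
  · intro p _
    positivity
  · exact hc
  · -- small primes
    intro p hp hpz
    obtain ⟨hpS, -, -⟩ := hmem p hp
    refine h3 S K M ρ Y z Z m hD hY hz hzZ hZm p hpS hpz _ (Finset.filter_subset _ _) ?_
    intro t ht
    obtain ⟨ht1, ht2⟩ := Finset.mem_filter.1 ht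
    have := (hpf t ht1).2.2.1
    rwa [ht2] at this
  · -- medium primes
    intro p hp _ _
    obtain ⟨hpS, -, -⟩ := hmem p hp
    refine (hfib p hp).trans ?_
    rw [mul_comm]
    apply mul_le_mul_of_nonneg_left _ hc
    refine (hkil p hpS).1.trans (le_of_eq ?_)
    ring
  · -- large primes
    intro p hp _ hwp
    obtain ⟨hpS, -, -⟩ := hmem p hp
    refine (hfib p hp).trans ?_
    have h4 : NS {D : ℕ | Adm M ρ D ∧ K D p} (2 * Y ^ 2) ≤ 1 := by
      apply (hkil p hpS).2.1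
      have e : 4 * (2 * Y ^ 2) ^ 2 = 16 * Y ^ 4 := by ring
      rw [e]
      exact hwp
    calc NS {D : ℕ | Adm M ρ D ∧ K D p} (2 * Y ^ 2) * (4 * Real.log Y) ^ m ≤
          1 * (4 * Real.log Y) ^ m := mul_le_mul_of_nonneg_right h4 hc
      _ = (4 * Real.log Y) ^ m := one_mul _

end SSE
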