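import Pool.Agent.SSE.Targets
import Pool.Agent.SSC.DIC

/-!
# MP_d74fca_nt, SSE-DI2: the dichotomy with a thin set of supersingular primes
-/

set_option autoImplicit false

open scoped BigOperators Classical
open Finset

namespace SSE

open SSC

namespace DI2_

open Filter

lemma ev_main (K : ℝ) (j : ℕ) {γ s : ℝ} (hγ : 0 < γ) (hs : 0 < s) :
    ∀ᶠ L : ℝ in atTop, K * L ^ j ≤ Real.exp (γ * L ^ s) := by
  filter_upwards [SSC.DIC_.ev_const (2 * Real.log (|K| + 1) / γ) hs,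
    SSC.DIC_.ev_log_le (2 * j / γ) hs, eventually_ge_atTop (1:ℝ)] with L h1 h2 h3
  have hL0 : 0 < L := by linarith
  have hK : 0 < |K| + 1 := by positivity
  have h4 : Real.log (|K| + 1) ≤ γ / 2 * L ^ s := by
    rw [div_le_iff₀ hγ] at h1
    linarith
  have h5 : j * Real.log L ≤ γ / 2 * L ^ s := by
    have h7 : 2 * j / γ * Real.log L * γ ≤ L ^ s * γ := mul_le_mul_of_nonneg_right h2 hγ.le
    have h6 : 2 * j / γ * Real.log L * γ = 2 * (j * Real.log L) := by field_simp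
    rw [h6] at h7
    linarith
  calc K * L ^ j ≤ (|K| + 1) * L ^ j := by
        apply mul_le_mul_of_nonneg_right _ (by positivity)
        linarith [le_abs_self K]
    _ = Real.exp (Real.log (|K| + 1) + j * Real.log L) := by
        rw [Real.exp_add, Real.exp_log hK, Real.exp_nat_mul, Real.exp_log hL0]
    _ ≤ Real.exp (γ * L ^ s) := Real.exp_le_exp.2 (by linarith)

lemma comb {K c P A B D : ℝ} (hc : 0 < c) (h : K / c * P ≤ A) (hB : 0 ≤ B) (hAB : A * B ≤ D) :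
    K * P * B ≤ c * D := by
  have h1 : K * P * B = c * (K / c * P * B) := by field_simp
  rw [h1]
  exact mul_le_mul_of_nonneg_left ((mul_le_mul_of_nonneg_right h hB).trans hAB) hc.le

/-- all inequalities that are needed for large `L = log Y` -/
structure Good (m : ℕ) (σ CT c c1 c2 δ A₀ L : ℝ) : Prop where
  g1 : 6 ≤ L
  g2 : 2 * m * L ^ (1 / 2 : ℝ) + Real.log 16 ≤ L
  g3 : A₀ ≤ Real.exp (L ^ (1 / 4 : ℝ))
  g4 : CT * Real.exp (L ^ (1 / 4 : ℝ)) ^ σ * (4 * L) ^ m * 48 * L * m.factorial ≤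
    c * c2 * Real.exp L ^ 2
  g5 : 384 * (CT * Real.exp (L ^ (1 / 4 : ℝ)) ^ σ) * L ^ 2 ≤ c * c2 * Real.exp L
  g6 : 384 * (CT * Real.exp (L ^ (1 / 4 : ℝ)) ^ σ) * L * m ≤ c * Real.exp (L ^ (1 / 4 : ℝ))
  g7 : (4 * L) ^ m * (CT * (16 * Real.exp L ^ 4) ^ σ) * 32 * L * m.factorial ≤
    c * c2 * Real.exp L ^ 2
  g8 : (4 * L) ^ m * (14 * (CT * Real.exp (L ^ (1 / 4 : ℝ)) ^ (-(1 / 2 - σ)))) * 32 * L *
    m.factorial ≤ c * c2
  g9 : Real.exp L ^ (2 - δ) * (4 * L) ^ m * 4 * L * m.factorial ≤ c * c2 * Real.exp L ^ 2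
  g10 : CT * Real.exp L ^ σ * 2 * L ≤ c1 * Real.exp L

lemma ev_good (m : ℕ) {σ CT c c1 c2 δ : ℝ} (A₀ : ℝ) (hσ : 0 < σ) (hσ2 : σ < 1 / 2)
    (hc : 0 < c) (hc1 : 0 < c1) (hc2 : 0 < c2) (hδ : 0 < δ) :
    ∀ᶠ L : ℝ in atTop, Good m σ CT c c1 c2 δ A₀ L := by
  have hcc : 0 < c * c2 := mul_pos hc hc2
  have hq : (0:ℝ) < 1 / 4 := by norm_num
  have hhalf : (1 / 2 : ℝ) < 1 := by norm_num
  filter_upwards [eventually_ge_atTop (6:ℝ), SSC.DIC_.ev_rpow_le (4 * m) hhalf,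
    ev_main A₀ 0 one_pos hq,
    ev_main (CT * 4 ^ m * 48 * m.factorial / (c * c2)) (m + 1) one_pos one_pos,
    ev_main (384 * CT / (c * c2)) 2 (half_pos one_pos) one_pos,
    ev_main (384 * CT * m / c) 1 (γ := 1 - σ) (by linarith) hq,
    ev_main (4 ^ m * CT * 16 ^ σ * 32 * m.factorial / (c * c2)) (m + 1) (γ := 2 - 4 * σ)
      (by linarith) one_pos,
    ev_main (4 ^ m * 14 * CT * 32 * m.factorial / (c * c2)) (m + 1) (γ := 1 / 2 - σ)
      (by linarith) hq,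
    ev_main (4 ^ m * 4 * m.factorial / (c * c2)) (m + 1) hδ one_pos,
    ev_main (CT * 2 / c1) 1 (γ := 1 - σ) (by linarith) one_pos]
    with L a1 a2 a3 a4 a5 a6 a7 a8 a9 a10
  have hL1 : 1 ≤ L := by linarith
  have hL0 : 0 < L := by linarith
  have hq4 : L ^ (1 / 4 : ℝ) ≤ L := by
    calc L ^ (1 / 4 : ℝ) ≤ L ^ (1 : ℝ) := Real.rpow_le_rpow_of_exponent_le hL1 (by norm_num)
      _ = L := Real.rpow_one L
  have hq0 : 0 ≤ L ^ (1 / 4 : ℝ) := Real.rpow_nonneg hL0.le _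
  rw [Real.rpow_one] at a2 a4 a5 a7 a9 a10
  rw [pow_zero, mul_one] at a3
  rw [pow_one] at a6 a10
  rw [one_mul] at a3 a4
  refine ⟨a1, ?_, a3, ?_, ?_, ?_, ?_, ?_, ?_, ?_⟩
  · have h16 : Real.log 16 ≤ 3 := by
      rw [Real.log_le_iff_le_exp (by norm_num)]
      have := Real.exp_one_gt_d9
      have h3 : Real.exp 3 = Real.exp 1 ^ 3 := by rw [← Real.exp_nat_mul]; norm_num
      rw [h3]
      have h4 : (2.7:ℝ) ^ 3 ≤ Real.exp 1 ^ 3 := pow_le_pow_left₀ (by norm_num) (by linarith) 3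
      norm_num at h4 ⊢
      linarith
    linarith
  · rw [← Real.exp_mul]
    have h := comb hcc a4 (Real.exp_pos (L ^ (1 / 4 : ℝ) * σ)).le (D := Real.exp L ^ 2) (by
      rw [sq]
      refine mul_le_mul_of_nonneg_left (Real.exp_le_exp.2 ?_) (Real.exp_pos _).le
      calc L ^ (1 / 4 : ℝ) * σ ≤ L ^ (1 / 4 : ℝ) * 1 :=
            mul_le_mul_of_nonneg_left (by linarith) hq0
        _ ≤ L := by rw [mul_one]; exact hq4)
    refine le_trans (le_of_eq ?_) h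
    rw [mul_pow, pow_succ]
    ring
  · rw [← Real.exp_mul]
    have h := comb hcc a5 (Real.exp_pos (L ^ (1 / 4 : ℝ) * σ)).le (D := Real.exp L) (by
      rw [← Real.exp_add]
      refine Real.exp_le_exp.2 ?_
      have h7 : L ^ (1 / 4 : ℝ) * σ ≤ L * (1 / 2) :=
        mul_le_mul hq4 hσ2.le hσ.le hL0.le
      linarith)
    refine le_trans (le_of_eq ?_) h
    ring
  · rw [← Real.exp_mul]
    have h := comb hc a6 (Real.exp_pos (L ^ (1 / 4 : ℝ) * σ)).le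
      (D := Real.exp (L ^ (1 / 4 : ℝ))) (by
      rw [← Real.exp_add]
      refine Real.exp_le_exp.2 (le_of_eq ?_)
      ring)
    refine le_trans (le_of_eq ?_) h
    ring
  · have e1 : (16 * Real.exp L ^ 4) ^ σ = 16 ^ σ * Real.exp (4 * σ * L) := by
      rw [Real.mul_rpow (by norm_num) (by positivity), ← Real.exp_nat_mul, ← Real.exp_mul]
      congr 2
      push_cast
      ring
    rw [e1]
    have h := comb hcc a7 (Real.exp_pos (4 * σ * L)).le (D := Real.exp L ^ 2) (by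
      rw [← Real.exp_add, ← Real.exp_nat_mul]
      refine Real.exp_le_exp.2 (le_of_eq ?_)
      push_cast
      ring)
    refine le_trans (le_of_eq ?_) h
    rw [mul_pow, pow_succ]
    ring
  · rw [← Real.exp_mul]
    have h := comb hcc a8 (Real.exp_pos (L ^ (1 / 4 : ℝ) * (-(1 / 2 - σ)))).le (D := 1) (by
      rw [← Real.exp_add]
      refine le_of_eq ?_
      rw [Real.exp_eq_one_iff]
      ring)
    rw [mul_one] at h
    refine le_trans (le_of_eq ?_) h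
    rw [mul_pow, pow_succ]
    ring
  · rw [← Real.exp_mul]
    have h := comb hcc a9 (Real.exp_pos (L * (2 - δ))).le (D := Real.exp L ^ 2) (by
      rw [← Real.exp_add, ← Real.exp_nat_mul]
      refine Real.exp_le_exp.2 (le_of_eq ?_)
      push_cast
      ring)
    refine le_trans (le_of_eq ?_) h
    rw [mul_pow, pow_succ]
    ring
  · rw [← Real.exp_mul]
    have h := comb hc1 a10 (Real.exp_pos (L * σ)).le (D := Real.exp L) (by
      rw [← Real.exp_add]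
      refine Real.exp_le_exp.2 (le_of_eq ?_)
      ring)
    refine le_trans (le_of_eq ?_) h
    ring

/-- lower bound for the sum of the `a` -/
lemma R_low (S : Set ℕ) {CT σ c1 Y : ℝ} (hY : 0 < Y) (hL : 0 < Real.log Y)
    (hCH : c1 * Y / Real.log Y ≤ ((pri (Y / 16) Y).card : ℝ))
    (hNS : NS S Y ≤ CT * Y ^ σ) (h : CT * Y ^ σ * 2 * Real.log Y ≤ c1 * Y) :
    c1 / 32 * Y ^ 2 / Real.log Y ≤ RR S Y := by
  have hcardA : c1 * Y / (2 * Real.log Y) ≤ ((AA S Y).card : ℝ) := by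
    have h8 : ((pri (Y / 16) Y).card : ℝ) ≤ ((AA S Y).card : ℝ) +
        (((pri (Y / 16) Y).filter fun l : ℕ => l ∈ S).card : ℝ) := by
      have h9 := Finset.card_filter_add_card_filter_not (s := pri (Y / 16) Y)
        (p := fun l : ℕ => l ∈ S)
      have h10 : (AA S Y).card = ((pri (Y / 16) Y).filter fun l : ℕ => ¬ l ∈ S).card := rfl
      rw [h10]
      have h11 : (pri (Y / 16) Y).card ≤ ((pri (Y / 16) Y).filter fun l : ℕ => ¬ l ∈ S).card +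
        ((pri (Y / 16) Y).filter fun l : ℕ => l ∈ S).card := by omega
      exact_mod_cast h11
    have h9 : (((pri (Y / 16) Y).filter fun l : ℕ => l ∈ S).card : ℝ) ≤ CT * Y ^ σ := by
      refine (SSC.DIC_.card_le_NS S Y _ ?_).trans hNS
      intro p hp
      obtain ⟨hp1, hp2⟩ := Finset.mem_filter.1 hp
      refine ⟨hp2, ?_⟩
      have := (Finset.mem_Icc.1 (Finset.mem_filter.1 hp1).1).2
      exact (Nat.le_floor_iff hY.le).1 this
    have h10 : CT * Y ^ σ ≤ c1 * Y / (2 * Real.log Y) := by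
      rw [le_div_iff₀ (by positivity)]
      linarith
    have h11 : c1 * Y / Real.log Y = c1 * Y / (2 * Real.log Y) + c1 * Y / (2 * Real.log Y) := by
      field_simp
      ring
    linarith
  have h7 : ((AA S Y).card : ℝ) * (Y / 16) ≤ RR S Y := by
    unfold RR
    rw [← nsmul_eq_mul]
    refine Finset.card_nsmul_le_sum _ _ _ ?_
    intro l hl
    have h8 := (Finset.mem_filter.1 hl).1
    exact (Finset.mem_filter.1 h8).2.2.le
  refine le_trans (le_of_eq ?_) (le_trans (mul_le_mul_of_nonneg_right hcardA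
    (show 0 ≤ Y / 16 by positivity)) h7)
  field_simp
  ring

lemma LL_gt {S : Set ℕ} {z Z : ℝ} {l : ℕ} (hl : l ∈ LL S z Z) : z < (l:ℝ) := by
  have h7 := (Finset.mem_filter.1 hl).1
  exact (Finset.mem_filter.1 h7).2.2

lemma em_nonneg (A : Finset ℕ) (m : ℕ) : 0 ≤ em A m :=
  Finset.sum_nonneg fun _ _ => Finset.prod_nonneg fun _ _ => by positivity

lemma em_up (h : T_ESY) (A : Finset ℕ) {z : ℝ} (hz : 0 < z) (hA : ∀ l ∈ A, z < (l:ℝ)) (m : ℕ) :
    em A m ≤ (∑ l ∈ A, 1 / (l:ℝ)) ^ m / m.factorial :=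
  (h A (fun l => 1 / (l:ℝ)) (1 / z) m (by positivity) fun l hl =>
    ⟨by positivity, one_div_le_one_div_of_le hz (hA l hl).le⟩).1

lemma em_low (h : T_ESY) (S : Set ℕ) {z Z W : ℝ} (m : ℕ) (hW : ∑ l ∈ LL S z Z, 1 / (l:ℝ) = W)
    (hz : 0 < z) (hW1 : 1 ≤ W) (hzm : 2 * (m:ℝ) ^ 2 ≤ z) :
    W ^ m / m.factorial / 2 ≤ em (LL S z Z) m := by
  have hWpos : 0 < W := by linarith
  have hmm : (m:ℝ) ≤ (m:ℝ) ^ 2 := by exact_mod_cast Nat.le_self_pow two_ne_zero m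
  have hm0 : (0:ℝ) ≤ m := Nat.cast_nonneg m
  have hmz : (m:ℝ) * (1 / z) ≤ 1 := by
    rw [mul_one_div, div_le_one hz]
    linarith
  have h7 := (h (LL S z Z) (fun l => 1 / (l:ℝ)) (1 / z) m (by positivity) fun l hl =>
    ⟨by positivity, one_div_le_one_div_of_le hz (LL_gt hl).le⟩).2 (by rw [hW]; linarith)
  rw [hW] at h7
  refine le_trans ?_ h7
  rw [div_div, mul_comm, ← div_div]
  refine div_le_div_of_nonneg_right ?_ (by positivity)
  have h8 : W * (1 - m * (1 / z)) ≤ W - m * (1 / z) := by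
    have h9 : m * (1 / z) ≤ W * (m * (1 / z)) := le_mul_of_one_le_left (by positivity) hW1
    have h10 : W * (1 - m * (1 / z)) = W - W * (m * (1 / z)) := by ring
    rw [h10]
    linarith
  have h10 : (1:ℝ) / 2 ≤ (1 - m * (1 / z)) ^ m := by
    have h11 := one_add_mul_le_pow (a := -(m * (1 / z))) (by linarith) m
    rw [← sub_eq_add_neg] at h11
    refine le_trans ?_ h11
    have h12 : (m:ℝ) * (m * (1 / z)) ≤ 1 / 2 := by
      rw [mul_one_div, mul_div_assoc', div_le_iff₀ hz]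
      have h13 : (m:ℝ) * m = (m:ℝ) ^ 2 := by ring
      rw [h13]
      linarith
    linarith
  calc W ^ m / 2 = W ^ m * (1 / 2) := by ring
    _ ≤ W ^ m * (1 - m * (1 / z)) ^ m := mul_le_mul_of_nonneg_left h10 (by positivity)
    _ = (W * (1 - m * (1 / z))) ^ m := by rw [mul_pow]
    _ ≤ (W - m * (1 / z)) ^ m :=
        pow_le_pow_left₀ (mul_nonneg hWpos.le (by linarith)) h8 m

lemma em_pred {W : ℝ} (hW : 1 ≤ W) {m : ℕ} (hm : 1 ≤ m) :
    W ^ (m - 1) / (m - 1).factorial ≤ m * (W ^ m / m.factorial) := by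
  obtain ⟨k, rfl⟩ : ∃ k, m = k + 1 := ⟨m - 1, by omega⟩
  rw [Nat.add_sub_cancel, Nat.factorial_succ]
  have hk : (0:ℝ) < k.factorial := by exact_mod_cast k.factorial_pos
  have h1 : ((k + 1 : ℕ) : ℝ) * (W ^ (k + 1) / (((k + 1) * k.factorial : ℕ) : ℝ)) =
      W ^ (k + 1) / k.factorial := by
    push_cast
    field_simp
  rw [h1]
  refine div_le_div_of_nonneg_right ?_ hk.le
  exact pow_le_pow_right₀ hW (by omega)

lemma em_half (h : T_ESY) (A : Finset ℕ) {z W C : ℝ} (hz : 0 < z) (hA : ∀ l ∈ A, z < (l:ℝ))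
    (m : ℕ) (hW : 1 ≤ W) (hC : 0 < C) (hWC : 2 * m * C ≤ W)
    (hs : 2 * ∑ l ∈ A, 1 / (l:ℝ) ≤ W + C) :
    2 ^ m * em A m ≤ 2 * (W ^ m / m.factorial) := by
  have hWpos : 0 < W := by linarith
  have hf : (0:ℝ) < m.factorial := by exact_mod_cast m.factorial_pos
  have h1 := em_up h A hz hA m
  have h2 : (2:ℝ) ^ m * em A m ≤ (W + C) ^ m / m.factorial := by
    calc (2:ℝ) ^ m * em A m ≤ 2 ^ m * ((∑ l ∈ A, 1 / (l:ℝ)) ^ m / m.factorial) :=
          mul_le_mul_of_nonneg_left h1 (by positivity)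
      _ = (2 * ∑ l ∈ A, 1 / (l:ℝ)) ^ m / m.factorial := by rw [mul_pow, mul_div_assoc]
      _ ≤ (W + C) ^ m / m.factorial := by
          refine div_le_div_of_nonneg_right ?_ hf.le
          refine pow_le_pow_left₀ ?_ hs m
          exact mul_nonneg (by norm_num) (Finset.sum_nonneg fun _ _ => by positivity)
  refine h2.trans ?_
  rw [mul_div_assoc']
  refine div_le_div_of_nonneg_right ?_ hf.le
  have h3 : W + C ≤ W * Real.exp (C / W) := by
    have h4 := Real.add_one_le_exp (C / W)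
    have h5 : W + C = W * (C / W + 1) := by field_simp; ring
    rw [h5]
    exact mul_le_mul_of_nonneg_left h4 hWpos.le
  have h6 : (W + C) ^ m ≤ (W * Real.exp (C / W)) ^ m := pow_le_pow_left₀ (by linarith) h3 m
  refine h6.trans ?_
  rw [mul_pow, ← Real.exp_nat_mul, mul_comm]
  refine mul_le_mul_of_nonneg_right ?_ (by positivity)
  have h7 : (m:ℝ) * (C / W) ≤ 1 / 2 := by
    rw [mul_div_assoc', div_le_iff₀ hWpos]
    linarith
  have h8 : Real.exp (1 / 2 : ℝ) ≤ 2 := by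
    have h9 : Real.exp (1 / 2 : ℝ) ^ 2 = Real.exp 1 := by
      rw [← Real.exp_nat_mul]
      norm_num
    have h10 := Real.exp_one_lt_d9
    have h11 : Real.exp (1 / 2 : ℝ) ^ 2 ≤ 2 ^ 2 := by
      rw [h9]
      norm_num
      linarith
    exact le_of_sq_le_sq h11 (by norm_num)
  exact (Real.exp_le_exp.2 h7).trans h8

lemma card_low (S : Set ℕ) (M : ℕ) {ρ c Y z Z : ℝ} (m : ℕ)
    (H : ∀ a ∈ AA S Y, ∀ T ∈ (LL S z Z).powersetCard m,
      c * ((a : ℝ) * ∏ l ∈ T, 1 / (l : ℝ)) ≤ ((HH S M ρ a (∏ l ∈ T, l)).card : ℝ)) :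
    c * (RR S Y * em (LL S z Z) m) ≤ ((UU S M ρ Y z Z m).card : ℝ) := by
  have hcard : ((UU S M ρ Y z Z m).card : ℝ) =
      ∑ a ∈ AA S Y, ∑ T ∈ (LL S z Z).powersetCard m,
        (((Icc 1 (2 * ⌊Y⌋₊)).filter fun h => h ∈ HH S M ρ a (∏ l ∈ T, l)).card : ℝ) := by
    rw [UU, Finset.card_filter, Finset.sum_product]
    push_cast
    apply Finset.sum_congr rfl
    intro a _
    rw [Finset.sum_product]
    apply Finset.sum_congr rfl
    intro T _
    rw [Finset.card_filter]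
    push_cast
    rfl
  rw [hcard, RR, em, Finset.sum_mul, Finset.mul_sum]
  apply Finset.sum_le_sum
  intro a ha
  rw [Finset.mul_sum, Finset.mul_sum]
  apply Finset.sum_le_sum
  intro T hT
  have haf := (Finset.mem_filter.1 ha).1
  obtain ⟨ha1, hap, ha16⟩ := Finset.mem_filter.1 haf
  have haY : a ≤ ⌊Y⌋₊ := (Finset.mem_Icc.1 ha1).2
  have hsub : (HH S M ρ a (∏ l ∈ T, l)).card ≤
      ((Icc 1 (2 * ⌊Y⌋₊)).filter fun h => h ∈ HH S M ρ a (∏ l ∈ T, l)).card := by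
    apply Finset.card_le_card
    intro h hh
    rw [Finset.mem_filter]
    refine ⟨?_, hh⟩
    have h7 := (Finset.mem_filter.1 hh).1
    rw [Finset.mem_Icc] at h7 ⊢
    omega
  exact (H a ha T hT).trans (by exact_mod_cast hsub)

lemma small_sum (S : Set ℕ) (P : Finset ℕ) (hP : ∀ p ∈ P, p ∈ S ∧ 0 < p) {c P0 er R E Cz : ℝ}
    {m : ℕ} (hc : 0 < c) (f : ℕ → ℝ) (hf0 : ∀ p ∈ P, 0 ≤ f p) (hf : ∀ p ∈ P, 2 ^ m * f p ≤ 2 * E)
    (hR : 0 ≤ R) (hE : 0 ≤ E) (her : 0 ≤ er) (hcard : (P.card : ℝ) ≤ Cz)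
    (hT : ∀ I : Finset ℕ, (∀ p ∈ I, p ∈ S ∧ P0 < (p : ℝ)) → ∑ p ∈ I, 1 / Real.sqrt p ≤ c / 960)
    (hm : 4 * NS S P0 ≤ c / 16 * 2 ^ m) :
    ∑ p ∈ P, (er + R * f p * min 2 (30 * 2 ^ m / Real.sqrt p)) ≤ Cz * er + c / 8 * (R * E) := by
  have h2m : (0:ℝ) < 2 ^ m := by positivity
  rw [Finset.sum_add_distrib, Finset.sum_const, nsmul_eq_mul]
  have h1 : (P.card : ℝ) * er ≤ Cz * er := mul_le_mul_of_nonneg_right hcard her
  have h2 : ∀ p ∈ P, R * f p * min 2 (30 * 2 ^ m / Real.sqrt p) ≤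
      if (p:ℝ) ≤ P0 then R * E * (4 / 2 ^ m) else R * E * 60 * (1 / Real.sqrt p) := by
    intro p hp
    have hfp := hf p hp
    have hfp0 := hf0 p hp
    have hsq : 0 < Real.sqrt p := Real.sqrt_pos.2 (by exact_mod_cast (hP p hp).2)
    split_ifs with hle
    · have h3 : f p * min 2 (30 * 2 ^ m / Real.sqrt p) ≤ E * (4 / 2 ^ m) := by
        calc f p * min 2 (30 * 2 ^ m / Real.sqrt p) ≤ f p * 2 :=
              mul_le_mul_of_nonneg_left (min_le_left _ _) hfp0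
          _ = (2 ^ m * f p) * (2 / 2 ^ m) := by field_simp
          _ ≤ (2 * E) * (2 / 2 ^ m) := mul_le_mul_of_nonneg_right hfp (by positivity)
          _ = E * (4 / 2 ^ m) := by ring
      rw [mul_assoc, mul_assoc]
      exact mul_le_mul_of_nonneg_left h3 hR
    · have h3 : f p * min 2 (30 * 2 ^ m / Real.sqrt p) ≤ E * (60 * (1 / Real.sqrt p)) := by
        calc f p * min 2 (30 * 2 ^ m / Real.sqrt p) ≤ f p * (30 * 2 ^ m / Real.sqrt p) :=
              mul_le_mul_of_nonneg_left (min_le_right _ _) hfp0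
          _ = (2 ^ m * f p) * (30 / Real.sqrt p) := by ring
          _ ≤ (2 * E) * (30 / Real.sqrt p) := mul_le_mul_of_nonneg_right hfp (by positivity)
          _ = E * (60 * (1 / Real.sqrt p)) := by ring
      rw [mul_assoc, mul_assoc, mul_assoc]
      exact mul_le_mul_of_nonneg_left h3 hR
  have h3 := Finset.sum_le_sum h2
  rw [Finset.sum_ite, Finset.sum_const, nsmul_eq_mul, ← Finset.mul_sum] at h3
  have h4 : ((P.filter fun p : ℕ => (p:ℝ) ≤ P0).card : ℝ) * (R * E * (4 / 2 ^ m)) ≤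
      c / 16 * (R * E) := by
    have h5 : ((P.filter fun p : ℕ => (p:ℝ) ≤ P0).card : ℝ) ≤ NS S P0 := by
      refine SSC.DIC_.card_le_NS S P0 _ ?_
      intro p hp
      obtain ⟨hp1, hp2⟩ := Finset.mem_filter.1 hp
      exact ⟨(hP p hp1).1, hp2⟩
    calc ((P.filter fun p : ℕ => (p:ℝ) ≤ P0).card : ℝ) * (R * E * (4 / 2 ^ m))
        ≤ NS S P0 * (R * E * (4 / 2 ^ m)) := mul_le_mul_of_nonneg_right h5 (by positivity)
      _ = (4 * NS S P0) * (R * E / 2 ^ m) := by ring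
      _ ≤ (c / 16 * 2 ^ m) * (R * E / 2 ^ m) := mul_le_mul_of_nonneg_right hm (by positivity)
      _ = c / 16 * (R * E) := by field_simp
  have h5 : R * E * 60 * ∑ p ∈ P.filter (fun p : ℕ => ¬ (p:ℝ) ≤ P0), 1 / Real.sqrt p ≤
      c / 16 * (R * E) := by
    have h6 := hT (P.filter fun p : ℕ => ¬ (p:ℝ) ≤ P0) (by
      intro p hp
      obtain ⟨hp1, hp2⟩ := Finset.mem_filter.1 hp
      exact ⟨(hP p hp1).1, not_le.1 hp2⟩)
    have h7 := mul_le_mul_of_nonneg_left h6 (show 0 ≤ R * E * 60 by positivity)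
    refine h7.trans (le_of_eq ?_)
    ring
  linarith

lemma medium_sum (S : Set ℕ) (P : Finset ℕ) {z U CT σ Q Y : ℝ} (hz : 1 ≤ z) (hU : 1 ≤ U)
    (hP : ∀ p ∈ P, p ∈ S ∧ z < (p:ℝ) ∧ (p:ℝ) ≤ U) (hQ : 0 ≤ Q)
    (hT : ∀ x : ℝ, 1 ≤ x → NS S x ≤ CT * x ^ σ ∧ ∀ I : Finset ℕ, (∀ p ∈ I, p ∈ S ∧ x < (p : ℝ)) →
      ∑ p ∈ I, 1 / Real.sqrt p ≤ CT * x ^ (-(1 / 2 - σ))) :
    ∑ p ∈ P, Q * (1 + 14 * Y ^ 2 / Real.sqrt p) ≤
      Q * (CT * U ^ σ) + Q * (14 * Y ^ 2 * (CT * z ^ (-(1 / 2 - σ)))) := by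
  have h1 : ∑ p ∈ P, Q * (1 + 14 * Y ^ 2 / Real.sqrt p) =
      Q * (P.card : ℝ) + Q * (14 * Y ^ 2 * ∑ p ∈ P, 1 / Real.sqrt p) := by
    rw [← Finset.mul_sum, Finset.sum_add_distrib, Finset.sum_const, nsmul_eq_mul, mul_one,
      mul_add, Finset.mul_sum (f := fun p : ℕ => 1 / Real.sqrt p)]
    congr 2
    apply Finset.sum_congr rfl
    intro p _
    ring
  rw [h1]
  have h2 : (P.card : ℝ) ≤ CT * U ^ σ := by
    refine (SSC.DIC_.card_le_NS S U _ ?_).trans (hT U hU).1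
    intro p hp
    exact ⟨(hP p hp).1, (hP p hp).2.2⟩
  have h3 := (hT z hz).2 P fun p hp => ⟨(hP p hp).1, (hP p hp).2.1⟩
  refine add_le_add (mul_le_mul_of_nonneg_left h2 hQ) ?_
  refine mul_le_mul_of_nonneg_left ?_ hQ
  exact mul_le_mul_of_nonneg_left h3 (by positivity)

lemma toV {T k c c2 Y L R E F : ℝ} (hR : c2 * Y ^ 2 / L ≤ R) (hE : 1 / F ≤ E) (hL : 0 < L)
    (hF : 0 < F) (hc : 0 ≤ c) (hc2 : 0 ≤ c2) (hk : 0 < k)
    (h : T * k * L * F ≤ c * c2 * Y ^ 2) : T ≤ c / k * (R * E) := by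
  have h1 : c2 * Y ^ 2 / L * (1 / F) ≤ R * E :=
    mul_le_mul hR hE (by positivity) (le_trans (by positivity) hR)
  have h2 : c / k * (c2 * Y ^ 2 / L * (1 / F)) ≤ c / k * (R * E) :=
    mul_le_mul_of_nonneg_left h1 (by positivity)
  refine le_trans ?_ h2
  have h3 : c / k * (c2 * Y ^ 2 / L * (1 / F)) = c * c2 * Y ^ 2 / (k * L * F) := by
    field_simp
  rw [h3, le_div_iff₀ (by positivity)]
  linarith

/-- the final computation -/
lemma fin_ {c V N A1 A2 A3 B1 B2 Q X Y2 : ℝ} (hQ : 0 < Q)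
    (h1 : c / 2 * V ≤ N) (h2 : N ≤ (A1 + A2 + A3) + c / 8 * V + (B1 + B2) + Q * X)
    (f1 : A1 ≤ c / 48 * V) (f2 : A2 ≤ c / 48 * V) (f3 : A3 ≤ c / 48 * V)
    (f4 : B1 ≤ c / 32 * V) (f5 : B2 ≤ c / 32 * V) (f6 : Y2 * Q ≤ c / 4 * V) : Y2 ≤ X := by
  have h3 : c / 4 * V ≤ Q * X := by linarith
  have h4 : Y2 * Q ≤ X * Q := by linarith
  exact le_of_mul_le_mul_right h4 hQ

/-- the main step -/
lemma main (h2 : T_TAIL) (h3 : T_HL2) (h4 : T_WW2) (h5 : T_AS2) (h6 : SSC.T_ESY)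
    (h7 : SSC.T_CHEB) (h8 : SSC.T_TUP) (S : Set ℕ) (K : ℕ → ℕ → Prop) (M : ℕ) (ρ σ : ℝ)
    (hD : Data S K M ρ) (hTh : Thin S σ) (ε₁ δ : ℝ) (hε₁ : 0 < ε₁) (hδ : 0 < δ) :
    ∃ Y₀ : ℝ, 1 ≤ Y₀ ∧ ∀ Y : ℝ, Y₀ ≤ Y →
      Y ^ (2 - δ) ≤ NS S (Real.exp ((2 * Y ^ 2) ^ (1 / 2 + ε₁))) := by
  obtain ⟨hM, hρ1, hρ2, hS, hKill, -⟩ := id hD
  obtain ⟨hσ, hσ2, -⟩ := id hTh
  have hSp : ∀ p ∈ S, p.Prime := fun p hp => (hS p hp).1
  obtain ⟨hTa, CT, hCT, hTb⟩ := h2 S σ hTh hSp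
  obtain ⟨c, hc, hHL⟩ := h3 S σ M ρ hTh hS hM hρ1 hρ2
  obtain ⟨CW, hCW, hWW⟩ := h4 S σ hTh hS
  obtain ⟨c1, YC, hc1, hYC, hCHEB⟩ := h7
  obtain ⟨D₀, hD₀⟩ := hKill ε₁ hε₁
  obtain ⟨P0, hP0⟩ := hTa (c / 960) (by positivity)
  obtain ⟨m, hm1, hmP⟩ : ∃ m : ℕ, 1 ≤ m ∧ 4 * NS S P0 ≤ c / 16 * 2 ^ m := by
    obtain ⟨m0, hm0⟩ := pow_unbounded_of_one_lt (64 * NS S P0 / c) (one_lt_two (α := ℝ))
    refine ⟨m0 + 1, by omega, ?_⟩
    rw [div_lt_iff₀ hc] at hm0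
    have h9 : (0:ℝ) < 2 ^ m0 * c := by positivity
    rw [pow_succ]
    linarith
  obtain ⟨Ya, za, hza, hHL⟩ := hHL m hm1
  obtain ⟨Yb, hWW⟩ := hWW (max 1 (2 * m * CW))
  obtain ⟨L₀, hL₀⟩ := (Filter.eventually_atTop.1
    (ev_good m (σ := σ) (CT := CT) (c := c) (c1 := c1) (c2 := c1 / 32) (δ := δ)
      (max za (max 3 (2 * (m:ℝ) ^ 2))) hσ hσ2 hc hc1 (by positivity) hδ))
  refine ⟨max (max (max Ya Yb) (max YC (Real.exp L₀))) (256 * (D₀ + 1)), ?_, ?_⟩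
  · refine le_trans ?_ (le_max_right _ _)
    have : (0:ℝ) ≤ D₀ := Nat.cast_nonneg _
    linarith
  intro Y hY
  have hYa : Ya ≤ Y := le_trans (le_max_left _ _) (le_trans (le_max_left _ _)
    (le_trans (le_max_left _ _) hY))
  have hYb : Yb ≤ Y := le_trans (le_max_right _ _) (le_trans (le_max_left _ _)
    (le_trans (le_max_left _ _) hY))
  have hYC' : YC ≤ Y := le_trans (le_max_left _ _) (le_trans (le_max_right _ _)
    (le_trans (le_max_left _ _) hY))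
  have hYL : Real.exp L₀ ≤ Y := le_trans (le_max_right _ _) (le_trans (le_max_right _ _)
    (le_trans (le_max_left _ _) hY))
  have hYD : 256 * ((D₀:ℝ) + 1) ≤ Y := le_trans (le_max_right _ _) hY
  clear hY
  have hYpos : 0 < Y := by
    have : (0:ℝ) ≤ D₀ := Nat.cast_nonneg _
    linarith
  have hY32 : 32 ≤ Y := by
    have : (0:ℝ) ≤ D₀ := Nat.cast_nonneg _
    linarith
  obtain ⟨W1, W2⟩ := hWW Y hYb
  have hCH := hCHEB Y hYC'
  obtain ⟨L, hL⟩ : ∃ L, Real.log Y = L := ⟨_, rfl⟩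
  have hYe : Y = Real.exp L := by rw [← hL, Real.exp_log hYpos]
  have G := hL₀ L (by rw [← hL, Real.le_log_iff_exp_le hYpos]; exact hYL)
  obtain ⟨g1, g2, g3, g4, g5, g6, g7, g8, g9, g10⟩ := G
  rw [← hYe] at g4 g5 g7 g9 g10
  obtain ⟨z, hz⟩ : ∃ z, z4 Y = z := ⟨_, rfl⟩
  obtain ⟨Z, hZ⟩ : ∃ Z, Z2 Y = Z := ⟨_, rfl⟩
  have hzL : Real.exp (L ^ (1 / 4 : ℝ)) = z := by rw [← hz, z4, hL]
  have hZL : Real.exp (L ^ (1 / 2 : ℝ)) = Z := by rw [← hZ, Z2, hL]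
  rw [hzL] at g3 g4 g5 g6 g8
  rw [hz, hZ] at W1 W2
  have hLpos : 0 < L := by linarith
  have hL1 : 1 ≤ L := by linarith
  have hzza : za ≤ z := (le_max_left _ _).trans g3
  have hz3 : 3 ≤ z := ((le_max_left _ _).trans (le_max_right _ _)).trans g3
  have hzm : 2 * (m:ℝ) ^ 2 ≤ z := ((le_max_right _ _).trans (le_max_right _ _)).trans g3
  have hzpos : 0 < z := by linarith
  have hz1 : 1 ≤ z := by linarith
  have hzZ : z ≤ Z := by
    rw [← hzL, ← hZL]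
    exact Real.exp_le_exp.2 (Real.rpow_le_rpow_of_exponent_le hL1 (by norm_num))
  have hZ1 : 1 ≤ Z := by linarith
  have hZ2m : Z ^ (2 * m) ≤ Y / 16 := by
    rw [← hZL, ← Real.exp_nat_mul, hYe, le_div_iff₀ (by norm_num)]
    have h16 : (16:ℝ) = Real.exp (Real.log 16) := by rw [Real.exp_log (by norm_num)]
    rw [h16, ← Real.exp_add]
    refine Real.exp_le_exp.2 ?_
    push_cast
    linarith
  have hZm1 : Z ^ (m + 1) ≤ Y / 16 := (pow_le_pow_right₀ hZ1 (by omega)).trans hZ2m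
  have hZm : Z ^ m ≤ Y / 16 := (pow_le_pow_right₀ hZ1 (by omega)).trans hZ2m
  obtain ⟨hT1, -, -⟩ := h8 S M ρ Y z Z m hSp hM hρ1 hρ2 hY32 (by linarith) hzZ hZm
  have hkill : ∀ t ∈ UU S M ρ Y z Z m, ∃ p ∈ S, ¬ p ∣ dd t ∧ K (dd t) p ∧
      (p : ℝ) ≤ Real.exp ((2 * Y ^ 2) ^ (1 / 2 + ε₁)) := by
    intro t ht
    obtain ⟨q1, q2, q3, q4, -⟩ := hT1 t ht
    have q5 : D₀ ≤ dd t := by
      have : (D₀:ℝ) ≤ dd t := by
        refine le_trans ?_ q4
        rw [le_div_iff₀ (by norm_num)]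
        have h9 : Y ≤ Y ^ 2 := by
          rw [sq]
          exact le_mul_of_one_le_right hYpos.le (by linarith)
        linarith
      exact_mod_cast this
    rcases hD₀ (dd t) q5 q1 with ⟨q, hq, hqd⟩ | ⟨p, hp, hpd, hK, hple⟩
    · exact absurd hqd (q2 q hq)
    · refine ⟨p, hp, hpd, hK, hple.trans (Real.exp_le_exp.2 ?_)⟩
      exact Real.rpow_le_rpow (by positivity) q3 (by positivity)
  have hle := h5 S K M ρ ε₁ Y z Z m hD hY32 hz3 hzZ hZm1 hε₁ hkill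
  have hlow := card_low S M (ρ := ρ) (c := c) (Y := Y) (z := z) (Z := Z) m
    (hHL Y z Z hYa hzza hzZ hZ2m)
  rw [hL] at hle
  -- the sums
  obtain ⟨W, hW⟩ : ∃ W, ∑ l ∈ LL S z Z, 1 / (l : ℝ) = W := ⟨_, rfl⟩
  rw [hW] at W1 W2
  have hW1 : 1 ≤ W := (le_max_left _ _).trans W1
  have hWC : 2 * m * CW ≤ W := (le_max_right _ _).trans W1
  have hfac : (0:ℝ) < m.factorial := by exact_mod_cast m.factorial_pos
  have e1 := em_low h6 S m hW hzpos hW1 hzm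
  have e2 := em_up h6 (LL S z Z) hzpos (fun l hl => LL_gt hl) m
  have e3 := em_up h6 (LL S z Z) hzpos (fun l hl => LL_gt hl) (m - 1)
  rw [hW] at e2 e3
  have e3' := e3.trans (em_pred hW1 hm1)
  have e4 : ∀ p ∈ S, (p:ℝ) ≤ z →
      2 ^ m * em ((LL S z Z).filter fun l => SSN.ch p l = 1) m ≤ 2 * (W ^ m / m.factorial) :=
    fun p hp hpz => em_half h6 _ hzpos (fun l hl => LL_gt (Finset.mem_filter.1 hl).1) m hW1 hCW hWC
      (W2 p hp hpz)
  have e5 : 1 / (m.factorial : ℝ) ≤ W ^ m / m.factorial :=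
    div_le_div_of_nonneg_right (one_le_pow₀ hW1) hfac.le
  obtain ⟨E, hE⟩ : ∃ E, W ^ m / (m.factorial : ℝ) = E := ⟨_, rfl⟩
  rw [hE] at e1 e2 e3' e4 e5
  have hE0 : 0 ≤ E := le_trans (by positivity) e5
  -- the sum of the `a`
  have hRlow : c1 / 32 * Y ^ 2 / L ≤ RR S Y := by
    rw [← hL]
    exact R_low S hYpos (by rw [hL]; exact hLpos) hCH (hTb Y (by linarith)).1
      (by rw [hL]; linarith)
  obtain ⟨R, hR⟩ : ∃ R, RR S Y = R := ⟨_, rfl⟩
  rw [hR] at hRlow hlow hle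
  have hR0 : 0 ≤ R := le_trans (by positivity) hRlow
  -- the error term
  obtain ⟨Q, hQ⟩ : ∃ Q, (4 * L) ^ m = Q := ⟨_, rfl⟩
  have hQpos : 0 < Q := by rw [← hQ]; positivity
  have herr : err S Y z Z m = Q + 8 * Y * L * em (LL S z Z) m +
      8 * R * (L / z) * em (LL S z Z) (m - 1) := by rw [err, hL, hR, hQ]
  have herr0 : 0 ≤ err S Y z Z m := by
    rw [herr]
    have q1 := em_nonneg (LL S z Z) m
    have q2 := em_nonneg (LL S z Z) (m - 1)
    positivity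
  have herr1 : err S Y z Z m ≤ Q + 8 * Y * L * E + 8 * R * (L / z) * (m * E) := by
    rw [herr]
    have q1 : 8 * Y * L * em (LL S z Z) m ≤ 8 * Y * L * E :=
      mul_le_mul_of_nonneg_left e2 (by positivity)
    have q2 : 8 * R * (L / z) * em (LL S z Z) (m - 1) ≤ 8 * R * (L / z) * (m * E) :=
      mul_le_mul_of_nonneg_left e3' (by positivity)
    linarith
  rw [hQ] at g4 g7 g8 g9 hle
  -- the small primes
  obtain ⟨Cz, hCz⟩ : ∃ Cz, CT * z ^ σ = Cz := ⟨_, rfl⟩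
  have hCz0 : 0 ≤ Cz := by
    rw [← hCz]
    exact mul_nonneg hCT.le (Real.rpow_nonneg hzpos.le _)
  have hsm := small_sum S ((Icc 1 ⌊z⌋₊).filter fun p : ℕ => p ∈ S) (by
      intro p hp
      obtain ⟨hp1, hp2⟩ := Finset.mem_filter.1 hp
      exact ⟨hp2, (hSp p hp2).pos⟩) (c := c) (P0 := P0) (er := err S Y z Z m) (R := R) (E := E)
    (Cz := Cz) (m := m) hc (fun p => em ((LL S z Z).filter fun l => SSN.ch p l = 1) m)
    (fun p _ => em_nonneg _ _) (by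
      intro p hp
      obtain ⟨hp1, hp2⟩ := Finset.mem_filter.1 hp
      exact e4 p hp2 ((Nat.le_floor_iff hzpos.le).1 (Finset.mem_Icc.1 hp1).2))
    hR0 hE0 herr0 (by
      rw [← hCz]
      refine (SSC.DIC_.card_le_NS S z _ ?_).trans (hTb z hz1).1
      intro p hp
      obtain ⟨hp1, hp2⟩ := Finset.mem_filter.1 hp
      exact ⟨hp2, (Nat.le_floor_iff hzpos.le).1 (Finset.mem_Icc.1 hp1).2⟩)
    hP0 hmP
  -- the medium primes
  have hU : (1:ℝ) ≤ 16 * Y ^ 4 := by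
    have : (1:ℝ) ≤ Y ^ 4 := one_le_pow₀ (by linarith)
    linarith
  have hmed := medium_sum S ((Icc 1 ⌊16 * Y ^ 4⌋₊).filter fun p : ℕ => p ∈ S ∧ z < (p : ℝ))
    (z := z) (U := 16 * Y ^ 4) (CT := CT) (σ := σ) (Q := Q) (Y := Y) hz1 hU (by
      intro p hp
      obtain ⟨hp1, hp2, hp3⟩ := Finset.mem_filter.1 hp
      exact ⟨hp2, hp3, (Nat.le_floor_iff (by linarith)).1 (Finset.mem_Icc.1 hp1).2⟩) hQpos.le hTb
  obtain ⟨X, hX⟩ : ∃ X, NS S (Real.exp ((2 * Y ^ 2) ^ (1 / 2 + ε₁))) = X := ⟨_, rfl⟩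
  rw [hX] at hle ⊢
  have hc2 : (0:ℝ) ≤ c1 / 32 := by positivity
  have hN2 := hle.trans (add_le_add (add_le_add hsm hmed) le_rfl)
  have hN1 : c / 2 * (R * E) ≤ ((UU S M ρ Y z Z m).card : ℝ) := by
    refine le_trans ?_ hlow
    have q1 : R * (E / 2) ≤ R * em (LL S z Z) m := mul_le_mul_of_nonneg_left e1 hR0
    have q2 := mul_le_mul_of_nonneg_left q1 hc.le
    linarith
  have hN3 : Cz * err S Y z Z m ≤ Cz * Q + Cz * (8 * Y * L * E) +
      Cz * (8 * R * (L / z) * (m * E)) := by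
    have q1 := mul_le_mul_of_nonneg_left herr1 hCz0
    linarith
  rw [hCz] at g4 g5 g6
  refine fin_ (c := c) (V := R * E) (N := ((UU S M ρ Y z Z m).card : ℝ)) (A1 := Cz * Q)
    (A2 := Cz * (8 * Y * L * E)) (A3 := Cz * (8 * R * (L / z) * (m * E)))
    (B1 := Q * (CT * (16 * Y ^ 4) ^ σ)) (B2 := Q * (14 * Y ^ 2 * (CT * z ^ (-(1 / 2 - σ)))))
    (Q := Q) (X := X) hQpos hN1 (by linarith) ?_ ?_ ?_ ?_ ?_ ?_
  · exact toV hRlow e5 hLpos hfac hc.le hc2 (by norm_num) g4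
  · have q1 : 384 * Cz * L * Y ≤ c * R := by
      have q2 : 384 * Cz * L * Y ≤ c * (c1 / 32 * Y ^ 2 / L) := by
        have q3 : c * (c1 / 32 * Y ^ 2 / L) = c * (c1 / 32) * Y ^ 2 / L := by ring
        rw [q3, le_div_iff₀ hLpos]
        have q4 := mul_le_mul_of_nonneg_right g5 hYpos.le
        refine le_trans (le_of_eq ?_) (q4.trans (le_of_eq ?_)) <;> ring
      exact q2.trans (mul_le_mul_of_nonneg_left hRlow hc.le)
    have q5 := mul_le_mul_of_nonneg_right q1 hE0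
    linarith
  · have q1 : 384 * Cz * (L / z) * m ≤ c := by
      have q3 : 384 * Cz * (L / z) * m = 384 * Cz * L * m / z := by ring
      rw [q3, div_le_iff₀ hzpos]
      exact g6
    have q5 := mul_le_mul_of_nonneg_right q1 (mul_nonneg hR0 hE0)
    linarith
  · exact toV hRlow e5 hLpos hfac hc.le hc2 (by norm_num) g7
  · refine toV hRlow e5 hLpos hfac hc.le hc2 (by norm_num) ?_
    have q1 := mul_le_mul_of_nonneg_right g8 (sq_nonneg Y)
    refine le_trans (le_of_eq ?_) q1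
    ring
  · exact toV hRlow e5 hLpos hfac hc.le hc2 (by norm_num) g9

end DI2_

open DI2_ in
theorem p_DI2 (h1 : T_THN) (h2 : T_TAIL) (h3 : T_HL2) (h4 : T_WW2) (h5 : T_AS2)
    (h6 : SSC.T_ESY) (h7 : SSC.T_CHEB) (h8 : SSC.T_TUP) : T_DI2 := by
  intro S K M ρ hD ε hε hx ε' hε'
  have hSp : ∀ p ∈ S, p.Prime := fun p hp => (hD.2.2.2.1 p hp).1
  obtain ⟨σ, hTh⟩ := h1 S ε hε hSp hx
  obtain ⟨Y₀, hY₀, H⟩ := main h2 h3 h4 h5 h6 h7 h8 S K M ρ σ hD hTh (ε' / 16) (ε' / 2)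
    (by positivity) (by positivity)
  -- `Y = (log x) ^ (1 / (1 + ε' / 4))`
  have hb : 0 < 1 / (1 + ε' / 4) := by positivity
  obtain ⟨L₁, hL₁⟩ := Filter.eventually_atTop.1
    ((Filter.eventually_ge_atTop (1:ℝ)).and ((SSC.DIC_.ev_const Y₀ hb).and
      (SSC.DIC_.ev_const ((2:ℝ) ^ (1 / 2 + ε' / 16))
        (b := 1 / (1 + ε' / 4) * (ε' / 8)) (by positivity))))
  refine ⟨Real.exp L₁, ?_⟩
  intro x hx1
  have hxpos : 0 < x := lt_of_lt_of_le (Real.exp_pos _) hx1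
  obtain ⟨a1, a2, a3⟩ := hL₁ (Real.log x) (by rw [Real.le_log_iff_exp_le hxpos]; exact hx1)
  obtain ⟨L, hL⟩ : ∃ L, Real.log x = L := ⟨_, rfl⟩
  rw [hL] at a1 a2 a3 ⊢
  have hL0 : 0 < L := by linarith
  have hxe : x = Real.exp L := by rw [← hL, Real.exp_log hxpos]
  have h9 := H _ a2
  have e1 : (L ^ (1 / (1 + ε' / 4))) ^ (2 - ε' / 2) = L ^ (1 / (1 + ε' / 4) * (2 - ε' / 2)) := by
    rw [← Real.rpow_mul hL0.le]
  have e2 : L ^ (2 - ε') ≤ L ^ (1 / (1 + ε' / 4) * (2 - ε' / 2)) := by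
    apply Real.rpow_le_rpow_of_exponent_le a1
    rw [one_div, inv_mul_eq_div, le_div_iff₀ (by positivity)]
    nlinarith
  have e3 : ((2:ℝ) * (L ^ (1 / (1 + ε' / 4))) ^ 2) ^ (1 / 2 + ε' / 16) ≤ L := by
    have q1 : (0:ℝ) ≤ L ^ (1 / (1 + ε' / 4)) := Real.rpow_nonneg hL0.le _
    rw [Real.mul_rpow (by norm_num) (by positivity), ← Real.rpow_natCast, ← Real.rpow_mul hL0.le,
      ← Real.rpow_mul hL0.le]
    calc (2:ℝ) ^ (1 / 2 + ε' / 16) *
          L ^ (1 / (1 + ε' / 4) * ((2:ℕ):ℝ) * (1 / 2 + ε' / 16))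
        ≤ L ^ (1 / (1 + ε' / 4) * (ε' / 8)) *
          L ^ (1 / (1 + ε' / 4) * ((2:ℕ):ℝ) * (1 / 2 + ε' / 16)) :=
          mul_le_mul_of_nonneg_right a3 (Real.rpow_nonneg hL0.le _)
      _ = L ^ (1:ℝ) := by
          rw [← Real.rpow_add hL0]
          congr 1
          push_cast
          field_simp
          ring
      _ = L := Real.rpow_one L
  rw [e1] at h9
  refine (e2.trans h9).trans ?_
  rw [hxe]
  exact SSC.DIC_.NS_mono S (Real.exp_le_exp.2 e3)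

end SSE
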