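import Pool.Agent.SSE.Targets
import Pool.Agent.SSC.HLO

/-! # SSE, target HL2: many numbers `h` for a thin set `S` -/

set_option autoImplicit false

open scoped BigOperators Classical
open Finset

namespace SSE

open SSC SSC.HLO_

namespace HL2_

/-- the product of a set of primes is squarefree -/
lemma sqf_prod (T : Finset ℕ) (hT : ∀ l ∈ T, l.Prime) : Squarefree (∏ l ∈ T, l) := by
  induction T using Finset.induction_on with
  | empty => simp
  | insert a s ha ih =>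
    rw [Finset.prod_insert ha, Nat.squarefree_mul_iff]
    refine ⟨?_, (hT a (mem_insert_self _ _)).prime.squarefree,
      ih fun l hl => hT l (mem_insert_of_mem hl)⟩
    refine Nat.Coprime.prod_right fun l hl => ?_
    rw [Nat.coprime_primes (hT a (mem_insert_self _ _)) (hT l (mem_insert_of_mem hl))]
    rintro rfl
    exact ha hl

/-- the sum of the reciprocals of the elements of `S` -/
lemma sum_inv (S : Set ℕ) (σ C : ℝ) (hσ : σ ≤ 1) (hS : ∀ p ∈ S, p.Prime)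
    (h : ∀ I : Finset ℕ, (∀ p ∈ I, p ∈ S) → ∑ p ∈ I, (p : ℝ) ^ (-σ) ≤ C)
    (I : Finset ℕ) (hI : ∀ p ∈ I, p ∈ S) : ∑ p ∈ I, 1 / (p : ℝ) ≤ C := by
  refine (Finset.sum_le_sum fun p hp => ?_).trans (h I hI)
  have h1 : (1 : ℝ) ≤ p := by exact_mod_cast (hS p (hI p hp)).one_lt.le
  rw [one_div, ← Real.rpow_neg_one]
  exact Real.rpow_le_rpow_of_exponent_le h1 (by linarith)

/-- the sum of the inverse squares -/
lemma sum_sq (Q : Finset ℕ) (hQ : ∀ q ∈ Q, 1 ≤ q) : ∑ q ∈ Q, 1 / ((q : ℝ) ^ 2) ≤ 2 := by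
  have h1 : ∑ q ∈ Q, 1 / ((q : ℝ) ^ 2) ≤ ∑ q ∈ Icc 1 (Q.sup id), 1 / ((q : ℝ) ^ 2) := by
    refine Finset.sum_le_sum_of_subset_of_nonneg ?_ fun _ _ _ => by positivity
    intro q hq
    exact mem_Icc.2 ⟨hQ q hq, Finset.le_sup (f := id) hq⟩
  refine h1.trans ?_
  set n := Q.sup id
  rcases Nat.eq_zero_or_pos n with hn | hn
  · rw [hn]; simp
  · have h2 : Icc 1 n = insert 1 (Ioc 1 n) := by
      ext x; simp only [mem_Icc, mem_insert, mem_Ioc]; omega
    rw [h2, Finset.sum_insert (by simp)]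
    have h4 := sum_Ioc_inv_sq_le_sub (α := ℝ) (k := 1) (n := n) (by omega) hn
    have h5 : ∑ t ∈ Ioc 1 n, 1 / ((t : ℝ) ^ 2) = ∑ t ∈ Ioc 1 n, ((t : ℝ) ^ 2)⁻¹ := by
      simp only [one_div]
    rw [h5]
    have h6 : (0:ℝ) ≤ ((n : ℕ) : ℝ)⁻¹ := by positivity
    push_cast at h4 ⊢
    norm_num at h4 ⊢
    linarith

end HL2_

open HL2_

theorem p_HL2 (h1 : SSC.T_BRU) (h2 : T_TAIL) : T_HL2 := by
  intro S σ M ρ hThin hSp hM hρ1 hρ2
  obtain ⟨hσ0, hσ1, C, hC, hCs⟩ := hThin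
  have hSp' : ∀ p ∈ S, p.Prime := fun p hp => (hSp p hp).1
  obtain ⟨hT1, -⟩ := h2 S σ ⟨hσ0, hσ1, C, hC, hCs⟩ hSp'
  have hMr : (0:ℝ) < M := by exact_mod_cast hM
  have hρ0 : 0 < ρ - 1 := by linarith
  set s : ℝ := 2 + C with hs
  set c : ℝ := (ρ - 1) * Real.exp (-(2 * s)) / (2 * M) with hc
  have hc0 : 0 < c := by positivity
  obtain ⟨P0, hP0⟩ := hT1 (c / 16) (by positivity)
  -- the level
  set W : ℝ := max (max P0 2) (32 / c) with hW
  have hWP : P0 ≤ W := (le_max_left _ _).trans (le_max_left _ _)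
  have hW2 : 2 ≤ W := (le_max_right _ _).trans (le_max_left _ _)
  have hWc : 32 / c ≤ W := le_max_right _ _
  have hW0 : 0 < W := by linarith
  set Q : Finset ℕ := (pri 1 W).filter fun q => ¬ q ∣ M with hQ
  set m : ℕ → ℕ := fun q => if q ∈ S then q else q ^ 2 with hm
  set r : ℕ := 2 * ⌈10 * s⌉₊ + 1 with hr
  have hs1 : 1 ≤ s := by rw [hs]; linarith
  have hr1 : 20 * s ≤ (r : ℝ) + 1 := by
    have := Nat.le_ceil (10 * s)
    rw [hr]; push_cast; linarith
  set E : ℝ := 2 * ((Q.card : ℝ) + 1) ^ r with hE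
  have hE0 : 0 < E := by positivity
  have hQmem : ∀ q ∈ Q, q.Prime ∧ (q : ℝ) ≤ W ∧ ¬ q ∣ M := by
    intro q hq
    rw [hQ, mem_filter, pri, mem_filter, mem_Icc] at hq
    exact ⟨hq.1.2.1, (Nat.le_floor_iff hW0.le).1 hq.1.1.2, hq.2⟩
  have hmq : ∀ q : ℕ, q ≤ m q := by
    intro q
    simp only [hm]
    split_ifs
    · exact le_rfl
    · exact Nat.le_self_pow (by norm_num) q
  have hWs : ∑ q ∈ Q, 1 / (m q : ℝ) ≤ s := by
    have e1 : ∀ q ∈ Q, 1 / (m q : ℝ) ≤ 1 / ((q : ℝ) ^ 2) + (if q ∈ S then 1 / (q : ℝ) else 0) := by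
      intro q hq
      by_cases hqS : q ∈ S
      · simp only [hm, if_pos hqS]
        have : (0:ℝ) ≤ 1 / ((q:ℝ) ^ 2) := by positivity
        linarith
      · simp only [hm, if_neg hqS]
        push_cast
        linarith
    refine (Finset.sum_le_sum e1).trans ?_
    rw [Finset.sum_add_distrib, ← Finset.sum_filter]
    have e2 := sum_sq Q fun q hq => (hQmem q hq).1.one_lt.le
    have e3 := sum_inv S σ C (by linarith) hSp' hCs (Q.filter fun q => q ∈ S)
      fun p hp => (mem_filter.1 hp).2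
    rw [hs]
    linarith
  have hnum := num Q (fun q => 1 / (m q : ℝ)) s r hs1 (fun q hq => by
    have h3 : (2:ℝ) ≤ m q := by exact_mod_cast (hQmem q hq).1.two_le.trans (hmq q)
    refine ⟨by positivity, ?_⟩
    exact one_div_le_one_div_of_le (by norm_num) h3) hWs hr1
  refine ⟨c / 2, by positivity, ?_⟩
  intro k hk
  have hkr : (1:ℝ) ≤ k := by exact_mod_cast hk
  refine ⟨max (16 * (8 * E / c) ^ 2 + 16) (16 * M + 16), max (max 3 (M + 1)) (32 * k / c),
    (le_max_left _ _).trans (le_max_left _ _), ?_⟩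
  intro Y z Z hY hz hzZ hZ a ha T hT
  have hY1 : 16 * (8 * E / c) ^ 2 + 16 ≤ Y := (le_max_left _ _).trans hY
  have hY2 : 16 * (M:ℝ) + 16 ≤ Y := (le_max_right _ _).trans hY
  have hz3 : 3 ≤ z := ((le_max_left _ _).trans (le_max_left _ _)).trans hz
  have hzM : (M:ℝ) + 1 ≤ z := ((le_max_right _ _).trans (le_max_left _ _)).trans hz
  have hzk : 32 * k / c ≤ z := (le_max_right _ _).trans hz
  have hY0 : 0 < Y := by nlinarith [sq_nonneg (8 * E / c)]
  have hz0 : 0 < z := by linarith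
  have hZ1 : 1 ≤ Z := by linarith
  -- the prime `a`
  rw [AA, mem_filter, pri, mem_filter, mem_Icc] at ha
  obtain ⟨⟨⟨ha1, ha2⟩, hap, haY⟩, haS⟩ := ha
  have haY2 : (a : ℝ) ≤ Y := (Nat.le_floor_iff hY0.le).1 ha2
  have har : (0:ℝ) < a := by exact_mod_cast hap.pos
  -- the primes `l`
  rw [mem_powersetCard] at hT
  obtain ⟨hTL, hTc⟩ := hT
  have hTm : ∀ l ∈ T, l.Prime ∧ z < (l : ℝ) ∧ (l : ℝ) ≤ Z ∧ l ∉ S := by
    intro l hl
    have h3 := hTL hl
    rw [LL, mem_filter, pri, mem_filter, mem_Icc] at h3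
    exact ⟨h3.1.2.1, h3.1.2.2, (Nat.le_floor_iff (by linarith)).1 h3.1.1.2, h3.2⟩
  set Λ : ℕ := ∏ l ∈ T, l with hΛ
  have hΛsq : Squarefree Λ := sqf_prod T fun l hl => (hTm l hl).1
  have hΛ0 : 0 < Λ := Nat.pos_of_ne_zero (Squarefree.ne_zero hΛsq)
  have hΛr : (0:ℝ) < Λ := by exact_mod_cast hΛ0
  have hΛZ : (Λ : ℝ) ≤ Z ^ k := by
    rw [hΛ]; push_cast
    calc ∏ l ∈ T, (l : ℝ) ≤ ∏ _l ∈ T, Z :=
          Finset.prod_le_prod (fun l _ => Nat.cast_nonneg l) fun l hl => (hTm l hl).2.2.1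
      _ = Z ^ k := by rw [prod_const, hTc]
  have hΛ2 : (Λ : ℝ) ^ 2 ≤ Y / 16 := by
    calc (Λ : ℝ) ^ 2 ≤ (Z ^ k) ^ 2 := pow_le_pow_left₀ hΛr.le hΛZ 2
      _ = Z ^ (2 * k) := by rw [← pow_mul, mul_comm]
      _ ≤ Y / 16 := hZ
  have hΛ1 : (1:ℝ) ≤ Λ := by exact_mod_cast hΛ0
  have hΛa : Λ < a := by
    have h3 : (Λ : ℝ) < a := by nlinarith
    exact_mod_cast h3
  have hfac : ∀ l : ℕ, l.Prime → l ∣ Λ → l ∈ T := by
    intro l hl h3
    obtain ⟨j, hj, h4⟩ := (hl.prime.dvd_finsetProd_iff _).1 h3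
    rw [(Nat.prime_dvd_prime_iff_eq hl (hTm j hj).1).1 h4]
    exact hj
  -- the class `b`
  have hcop : (a * Λ).Coprime M := by
    refine Nat.Coprime.mul_left ?_ ?_
    · rw [hap.coprime_iff_not_dvd]
      intro h3
      have h4 : (a : ℝ) ≤ M := by exact_mod_cast Nat.le_of_dvd hM h3
      linarith
    · refine Nat.coprime_of_dvd fun l hl h3 h4 => ?_
      have h5 : (l : ℝ) ≤ M := by exact_mod_cast Nat.le_of_dvd hM h4
      have := (hTm l (hfac l hl h3)).2.1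
      linarith
  obtain ⟨b, hb⟩ := exb M (a * Λ) hM hcop
  set u : ℝ := (a : ℝ) / Λ with hu
  set v : ℝ := ρ * a / Λ with hv
  have hu0 : 0 < u := by positivity
  have huv : v = ρ * u := by rw [hv, hu]; ring
  have huv' : u ≤ v := by rw [huv]; nlinarith
  have hv2 : v ≤ 2 * u := by rw [huv]; nlinarith
  have hv0 : 0 < v := lt_of_lt_of_le hu0 huv'
  have hBRU := h1 Q m M b r u v hM ⟨⌈10 * s⌉₊, rfl⟩
    (fun q hq => ⟨(hQmem q hq).1, (Nat.Prime.coprime_iff_not_dvd (hQmem q hq).1).2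
      (hQmem q hq).2.2, by simp only [hm]; split_ifs <;> simp⟩) hu0.le huv'
  have hmain : u * c ≤ (v - u) / M * ((∏ q ∈ Q, (1 - 1 / (m q : ℝ))) -
      (∑ q ∈ Q, 1 / (m q : ℝ)) ^ (r + 1) / (r + 1).factorial) := by
    have e1 : u * c = (v - u) / M * (Real.exp (-(2 * s)) / 2) := by
      rw [huv, hc]
      field_simp
    rw [e1]
    exact mul_le_mul_of_nonneg_left hnum (div_nonneg (by linarith) hMr.le)
  -- the size of `u`
  have huE : E ≤ u * (c / 8) := by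
    have e1 : 8 * E / c ≤ u := by
      have e2 : (8 * E / c) ^ 2 ≤ u ^ 2 := by
        have e3 : (8 * E / c) ^ 2 ≤ Y / 16 := by linarith
        have e4 : Y / 16 ≤ u ^ 2 := by
          rw [hu, div_pow, le_div_iff₀ (by positivity)]
          calc Y / 16 * (Λ : ℝ) ^ 2 ≤ Y / 16 * (Y / 16) :=
                mul_le_mul_of_nonneg_left hΛ2 (by positivity)
            _ ≤ a * a := mul_le_mul haY.le haY.le (by positivity) har.le
            _ = (a : ℝ) ^ 2 := by ring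
        linarith
      exact le_of_sq_le_sq e2 hu0.le
    rw [div_le_iff₀ hc0] at e1
    linarith
  -- the exceptional sets
  set N := ⌊v⌋₊ with hN
  have hNv : (N : ℝ) ≤ v := Nat.floor_le hv0.le
  set G := (Icc 1 N).filter fun h : ℕ => u < (h : ℝ) ∧ (h : ℝ) < v ∧ h ≡ b [MOD M] ∧
      ∀ q ∈ Q, ¬ m q ∣ h with hG
  set T3 : Finset ℕ := (Icc 1 N).filter fun q : ℕ => q ∈ S ∧ W < (q : ℝ) with hT3
  set B1 := (Icc 1 N).filter fun h : ℕ => ∃ t ∈ T, t ∣ h with hB1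
  set B2 := (Icc 1 N).filter fun h : ℕ => ∃ t ∈ Ioc ⌊W⌋₊ N, t ^ 2 ∣ h with hB2
  set B3 := (Icc 1 N).filter fun h : ℕ => ∃ t ∈ T3, t ∣ h with hB3
  have hsub : G ⊆ HH S M ρ a Λ ∪ (B1 ∪ (B2 ∪ B3)) := by
    intro h hh
    by_contra hcon
    simp only [mem_union, not_or] at hcon
    obtain ⟨c0, c1, c2, c3⟩ := hcon
    rw [hG, mem_filter] at hh
    obtain ⟨hI, g1, g2, g3, g4⟩ := hh
    have hI' := mem_Icc.1 hI
    refine c0 (core S M ρ Y W a Λ b Q m hM hρ2 hSp' hap haY2 (by linarith) hΛa hΛsq hb ?_ ?_ h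
      hI'.1 g1 g2 g3 g4 ?_ ?_ ?_)
    · intro q hqp hqz hqM
      rw [hQ, mem_filter, pri, mem_filter, mem_Icc]
      exact ⟨⟨⟨hqp.one_lt.le, (Nat.le_floor_iff hW0.le).2 hqz⟩, hqp,
        by exact_mod_cast hqp.one_lt⟩, hqM⟩
    · intro q
      refine ⟨fun hq => by simp only [hm, if_pos hq], ?_⟩
      simp only [hm]
      split_ifs
      · exact dvd_mul_right q q
      · rw [sq]
    · intro l hl hlΛ hlh
      exact c1 (mem_filter.2 ⟨hI, l, hfac l hl hlΛ, hlh⟩)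
    · intro q hqp hqz hqq
      refine c2 (mem_filter.2 ⟨hI, q, mem_Ioc.2 ⟨?_, ?_⟩, by rw [sq]; exact hqq⟩)
      · exact (Nat.floor_lt hW0.le).2 hqz
      · have h3 : q * q ≤ h := Nat.le_of_dvd (by omega) hqq
        have h4 : q ≤ q * q := Nat.le_mul_self q
        omega
    · intro q hqS hqz hqY hqh
      refine c3 (mem_filter.2 ⟨hI, q, ?_, hqh⟩)
      rw [hT3, mem_filter, mem_Icc]
      exact ⟨⟨(hSp' q hqS).one_lt.le, (Nat.le_of_dvd (by omega) hqh).trans hI'.2⟩, hqS, hqz⟩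
  have hcard : (G.card : ℝ) ≤ (HH S M ρ a Λ).card + (B1.card + (B2.card + B3.card)) := by
    have e1 := (card_le_card hsub).trans ((card_union_le _ _).trans
      (Nat.add_le_add_left ((card_union_le _ _).trans
        (Nat.add_le_add_left (card_union_le _ _) _)) _))
    exact_mod_cast e1
  have hb1 : (B1.card : ℝ) ≤ u * (c / 16) := by
    refine (mult T (fun t => t) N v hNv).trans ?_
    calc ∑ t ∈ T, v / (t : ℝ) ≤ ∑ t ∈ T, v / z := by
          refine Finset.sum_le_sum fun t ht => ?_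
          exact div_le_div_of_nonneg_left hv0.le hz0 (hTm t ht).2.1.le
      _ = k * (v / z) := by rw [sum_const, nsmul_eq_mul, hTc]
      _ ≤ k * (2 * u / z) :=
          mul_le_mul_of_nonneg_left (div_le_div_of_nonneg_right hv2 hz0.le) (by positivity)
      _ = u * (2 * k / z) := by ring
      _ ≤ u * (c / 16) := by
          refine mul_le_mul_of_nonneg_left ?_ hu0.le
          rw [div_le_iff₀ hz0]
          rw [div_le_iff₀ hc0] at hzk
          linarith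
  have hz1 : 1 ≤ ⌊W⌋₊ := (Nat.one_le_floor_iff _).2 (by linarith)
  have hb2 : (B2.card : ℝ) ≤ u * (c / 8) := by
    refine (mult (Ioc ⌊W⌋₊ N) (fun t => t ^ 2) N v hNv).trans ?_
    rcases le_or_gt ⌊W⌋₊ N with h3 | h3
    · have h4 := sum_Ioc_inv_sq_le_sub (α := ℝ) (k := ⌊W⌋₊) (n := N) (by omega) h3
      have h5 : ∑ t ∈ Ioc ⌊W⌋₊ N, v / (((t ^ 2 : ℕ)) : ℝ)
          = v * ∑ t ∈ Ioc ⌊W⌋₊ N, ((t : ℝ) ^ 2)⁻¹ := by
        rw [Finset.mul_sum]
        refine Finset.sum_congr rfl fun t _ => ?_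
        push_cast
        rw [div_eq_mul_inv]
      rw [h5]
      have h6 : ((⌊W⌋₊ : ℕ) : ℝ)⁻¹ ≤ 2 / W := by
        have h7 : W / 2 ≤ (⌊W⌋₊ : ℝ) := by
          have := Nat.lt_floor_add_one W
          have h8 : (1:ℝ) ≤ (⌊W⌋₊ : ℝ) := by exact_mod_cast hz1
          linarith
        calc ((⌊W⌋₊ : ℕ) : ℝ)⁻¹ ≤ (W / 2)⁻¹ := inv_anti₀ (by positivity) h7
          _ = 2 / W := by rw [inv_div]
      have h9 : (0:ℝ) ≤ ((N : ℕ) : ℝ)⁻¹ := by positivity
      calc v * ∑ t ∈ Ioc ⌊W⌋₊ N, ((t : ℝ) ^ 2)⁻¹ ≤ v * (2 / W) :=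
            mul_le_mul_of_nonneg_left (by linarith) hv0.le
        _ ≤ (2 * u) * (2 / W) := mul_le_mul_of_nonneg_right hv2 (by positivity)
        _ = u * (4 / W) := by ring
        _ ≤ u * (c / 8) := by
            refine mul_le_mul_of_nonneg_left ?_ hu0.le
            rw [div_le_iff₀ hW0]
            rw [div_le_iff₀ hc0] at hWc
            linarith
    · rw [Ioc_eq_empty (by omega)]
      simp only [sum_empty]
      positivity
  have hb3 : (B3.card : ℝ) ≤ u * (c / 8) := by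
    refine (mult T3 (fun t => t) N v hNv).trans ?_
    have h3 : ∑ t ∈ T3, 1 / Real.sqrt t ≤ c / 16 := by
      refine hP0 T3 fun p hp => ?_
      rw [hT3, mem_filter] at hp
      exact ⟨hp.2.1, lt_of_le_of_lt hWP hp.2.2⟩
    calc ∑ t ∈ T3, v / (t : ℝ) ≤ ∑ t ∈ T3, v * (1 / Real.sqrt t) := by
          refine Finset.sum_le_sum fun t ht => ?_
          rw [hT3, mem_filter, mem_Icc] at ht
          have h4 : (1:ℝ) ≤ t := by exact_mod_cast ht.1.1
          have h5 : Real.sqrt t ≤ t := by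
            rw [Real.sqrt_le_left (by linarith)]
            nlinarith
          have h6 : 0 < Real.sqrt t := Real.sqrt_pos.2 (by linarith)
          rw [mul_one_div]
          exact div_le_div_of_nonneg_left hv0.le h6 h5
      _ = v * ∑ t ∈ T3, 1 / Real.sqrt t := by rw [Finset.mul_sum]
      _ ≤ (2 * u) * (c / 16) := by
          refine mul_le_mul hv2 h3 ?_ (by positivity)
          exact Finset.sum_nonneg fun t _ => by positivity
      _ = u * (c / 8) := by ring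
  have hBRU' : u * c - E ≤ G.card := by
    refine le_trans ?_ hBRU
    linarith
  have hfin : c / 2 * u ≤ (HH S M ρ a Λ).card := by nlinarith
  have hprod : (a : ℝ) * ∏ l ∈ T, 1 / (l : ℝ) = u := by
    rw [hu, hΛ]; push_cast
    rw [Finset.prod_div_distrib]
    simp [div_eq_mul_inv]
  rw [hprod]
  exact hfin

end SSE
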