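import Pool.Agent.SSE.Targets
import Pool.Agent.SSC.KIL

/-!
# KI2: refined counting of the numbers killed by `p`
-/

set_option autoImplicit false

open scoped BigOperators
open Finset

namespace SSE

open SSC

namespace KI2_

/-- bilinear form attached to `qf` -/
def bf (a b c x y x' y' : ℤ) : ℤ := 2 * a * x * x' + b * (x * y' + x' * y) + 2 * c * y * y'

theorem pair_id (a b c x y x' y' : ℤ) :
    4 * SSN.qf a b c x y * SSN.qf a b c x' y' = (bf a b c x y x' y') ^ 2 +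
      (4 * a * c - b ^ 2) * (x * y' - x' * y) ^ 2 := by
  unfold SSN.qf bf
  ring

theorem cramer (a b c x1 y1 x2 y2 x3 y3 : ℤ) :
    (x1 * y3 - x3 * y1) ^ 2 * SSN.qf a b c x2 y2 =
      (x2 * y3 - x3 * y2) ^ 2 * SSN.qf a b c x1 y1 +
      (x2 * y3 - x3 * y2) * (x1 * y2 - x2 * y1) * bf a b c x1 y1 x3 y3 +
      (x1 * y2 - x2 * y1) ^ 2 * SSN.qf a b c x3 y3 := by
  unfold SSN.qf bf
  ring

/-- a form has at most two roots modulo `l` -/
theorem two_roots {a b c : ℤ} {l : ℕ} (hl : l.Prime) (hΔ : ¬ (l : ℤ) ∣ 4 * a * c - b ^ 2)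
    {x1 y1 x2 y2 x3 y3 : ℤ} (h1 : (l : ℤ) ∣ SSN.qf a b c x1 y1) (h2 : (l : ℤ) ∣ SSN.qf a b c x2 y2)
    (h3 : (l : ℤ) ∣ SSN.qf a b c x3 y3) (h13 : ¬ (l : ℤ) ∣ x1 * y3 - x3 * y1)
    (h23 : ¬ (l : ℤ) ∣ x2 * y3 - x3 * y2) : (l : ℤ) ∣ x1 * y2 - x2 * y1 := by
  have hlp : Prime (l : ℤ) := Nat.prime_iff_prime_int.1 hl
  -- the bilinear form is not zero
  have hB : ¬ (l : ℤ) ∣ bf a b c x1 y1 x3 y3 := by
    intro hB
    have e := pair_id a b c x1 y1 x3 y3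
    have e1 : (l : ℤ) ∣ 4 * SSN.qf a b c x1 y1 * SSN.qf a b c x3 y3 :=
      Dvd.dvd.mul_left h3 _
    rw [e] at e1
    have e2 : (l : ℤ) ∣ (bf a b c x1 y1 x3 y3) ^ 2 := Dvd.dvd.pow hB (by norm_num)
    have e3 := (dvd_add_right e2).1 e1
    rcases hlp.dvd_or_dvd e3 with h | h
    · exact hΔ h
    · exact h13 (hlp.dvd_of_dvd_pow h)
  have e := cramer a b c x1 y1 x2 y2 x3 y3
  have e1 : (l : ℤ) ∣ (x2 * y3 - x3 * y2) * (x1 * y2 - x2 * y1) * bf a b c x1 y1 x3 y3 := by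
    have e2 : (x2 * y3 - x3 * y2) * (x1 * y2 - x2 * y1) * bf a b c x1 y1 x3 y3 =
        (x1 * y3 - x3 * y1) ^ 2 * SSN.qf a b c x2 y2 -
        (x2 * y3 - x3 * y2) ^ 2 * SSN.qf a b c x1 y1 -
        (x1 * y2 - x2 * y1) ^ 2 * SSN.qf a b c x3 y3 := by
      rw [e]
      ring
    rw [e2]
    exact dvd_sub (dvd_sub (Dvd.dvd.mul_left h2 _) (Dvd.dvd.mul_left h1 _))
      (Dvd.dvd.mul_left h3 _)
  rcases hlp.dvd_or_dvd e1 with h | h
  · rcases hlp.dvd_or_dvd h with h' | h'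
    · exact absurd h' h23
    · exact h'
  · exact absurd h hB

/-- proportionality modulo `l` is transitive through a primitive vector -/
theorem prop_trans {l : ℕ} (hl : l.Prime) {x1 y1 x2 y2 x3 y3 : ℤ} (hc : IsCoprime x3 y3)
    (h13 : (l : ℤ) ∣ x1 * y3 - x3 * y1) (h23 : (l : ℤ) ∣ x2 * y3 - x3 * y2) :
    (l : ℤ) ∣ x1 * y2 - x2 * y1 := by
  have hlp : Prime (l : ℤ) := Nat.prime_iff_prime_int.1 hl
  have e1 : (l : ℤ) ∣ x3 * (x1 * y2 - x2 * y1) := by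
    have e : x3 * (x1 * y2 - x2 * y1) =
        x2 * (x1 * y3 - x3 * y1) - x1 * (x2 * y3 - x3 * y2) := by ring
    rw [e]
    exact dvd_sub (Dvd.dvd.mul_left h13 _) (Dvd.dvd.mul_left h23 _)
  have e2 : (l : ℤ) ∣ y3 * (x1 * y2 - x2 * y1) := by
    have e : y3 * (x1 * y2 - x2 * y1) =
        y2 * (x1 * y3 - x3 * y1) - y1 * (x2 * y3 - x3 * y2) := by ring
    rw [e]
    exact dvd_sub (Dvd.dvd.mul_left h13 _) (Dvd.dvd.mul_left h23 _)
  obtain ⟨s, t, hst⟩ := hc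
  have e3 : x1 * y2 - x2 * y1 = s * (x3 * (x1 * y2 - x2 * y1)) + t * (y3 * (x1 * y2 - x2 * y1)) := by
    linear_combination (-(x1 * y2 - x2 * y1)) * hst
  rw [e3]
  exact dvd_add (Dvd.dvd.mul_left e1 _) (Dvd.dvd.mul_left e2 _)

/-- a representation of a squarefree number is primitive -/
theorem coprime_of_sqfree {a b c x y : ℤ} {n : ℕ} (hn : Squarefree n)
    (h : SSN.qf a b c x y = n) : IsCoprime x y := by
  rw [Int.isCoprime_iff_gcd_eq_one]
  have hg1 : ((Int.gcd x y : ℕ) : ℤ) ∣ x := Int.gcd_dvd_left _ _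
  have hg2 : ((Int.gcd x y : ℕ) : ℤ) ∣ y := Int.gcd_dvd_right _ _
  set g := Int.gcd x y with hg
  obtain ⟨x', hx'⟩ := hg1
  obtain ⟨y', hy'⟩ := hg2
  have h1 : (g : ℤ) * g ∣ n := by
    rw [← h, hx', hy']
    unfold SSN.qf
    exact ⟨a * x' ^ 2 + b * x' * y' + c * y' ^ 2, by ring⟩
  have h2 : g * g ∣ n := by exact_mod_cast h1
  exact Nat.isUnit_iff.1 (hn g h2)

/-- the numbers `h` of one class are values of one form of the same discriminant -/
theorem class_form {a b c : ℤ} (ha : 0 < a) (hΔ : 0 < 4 * a * c - b ^ 2) {N : ℕ} (hN : 0 < N)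
    {x1 y1 : ℤ} {h1 : ℕ} (hc : IsCoprime x1 y1) (hq : SSN.qf a b c x1 y1 = ((N * h1 : ℕ) : ℤ))
    (hh1 : 0 < h1) : ∃ a' b' c' : ℤ, 0 < a' ∧ 4 * a' * c' - b' ^ 2 = 4 * a * c - b ^ 2 ∧
      ∀ (x y : ℤ) (h : ℕ), SSN.qf a b c x y = ((N * h : ℕ) : ℤ) → (N : ℤ) ∣ x * y1 - x1 * y →
        SSN.Val a' b' c' h := by
  obtain ⟨s, t, hst⟩ := hc
  -- the basis `(x1, y1)`, `(-t, s)`
  refine ⟨h1, bf a b c x1 y1 (-t) s, N * SSN.qf a b c (-t) s, by exact_mod_cast hh1, ?_, ?_⟩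
  · have e := pair_id a b c x1 y1 (-t) s
    have e1 : x1 * s - (-t) * y1 = 1 := by linarith
    rw [e1, hq] at e
    push_cast at e
    linear_combination e
  · intro x y h hxy hdvd
    obtain ⟨k, hk⟩ := hdvd
    refine ⟨x * s + t * y, -k, ?_⟩
    have hx : x = (x * s + t * y) * x1 + (N * (-k)) * (-t) := by
      linear_combination (-x) * hst + t * hk
    have hy : y = (x * s + t * y) * y1 + (N * (-k)) * s := by
      linear_combination (-y) * hst - s * hk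
    have hN0 : (N : ℤ) ≠ 0 := by exact_mod_cast hN.ne'
    apply mul_left_cancel₀ hN0
    have e1 : SSN.qf a b c ((x * s + t * y) * x1 + (N * (-k)) * (-t))
        ((x * s + t * y) * y1 + (N * (-k)) * s) = N * h := by
      rw [← hx, ← hy, hxy]
      push_cast
      ring
    rw [← e1]
    have e2 : SSN.qf a b c x1 y1 = N * h1 := by
      rw [hq]
      push_cast
      ring
    unfold SSN.qf at e2 ⊢
    unfold bf
    linear_combination (-(x * s + t * y) ^ 2) * e2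

theorem one_class {a b c : ℤ} (hred : SSN.T_RED) {p : ℕ} (hp : 0 < p) {w : ℤ} (ha : 0 < a)
    (hΔ : 0 < 4 * a * c - b ^ 2) (hw : 4 * a * c - b ^ 2 = p * w ^ 2) {N : ℕ} (hN : 0 < N)
    {H : ℝ} (hH : 0 ≤ H) (G : Finset ℕ) (xx yy : ℕ → ℤ)
    (hG : ∀ h ∈ G, SSN.qf a b c (xx h) (yy h) = ((N * h : ℕ) : ℤ) ∧ Squarefree (N * h) ∧
      (h : ℝ) ≤ H)
    (hcl : ∀ h ∈ G, ∀ k ∈ G, (N : ℤ) ∣ xx h * yy k - xx k * yy h) :
    (G.card : ℝ) ≤ 1 + 7 * H / Real.sqrt p := by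
  rcases G.eq_empty_or_nonempty with he | ⟨h1, hh1⟩
  · rw [he, card_empty, Nat.cast_zero]
    positivity
  · obtain ⟨q1, q2, q3⟩ := hG h1 hh1
    have hpos : 0 < h1 := by
      rcases Nat.eq_zero_or_pos h1 with h0 | h0
      · rw [h0, Nat.mul_zero] at q2
        exact absurd q2 not_squarefree_zero
      · exact h0
    obtain ⟨a', b', c', ha', hD', hval⟩ := class_form ha hΔ hN (coprime_of_sqfree q2 q1) q1 hpos
    obtain ⟨a2, b2, c2, Δ, hr, hΔ2, hiff⟩ := hred a' b' c' ha' (by rw [hD']; exact hΔ)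
    obtain ⟨hf, ht⟩ := SSC.KIL_.triv a2 b2 c2 Δ hr H hH
    have hsub : (G : Set ℕ) ⊆ {ℓ : ℕ | Squarefree ℓ ∧ (ℓ : ℝ) ≤ H ∧ SSN.Val a2 b2 c2 ℓ} := by
      intro h hh
      obtain ⟨r1, r2, r3⟩ := hG h hh
      refine ⟨Squarefree.of_mul_right r2, r3, ?_⟩
      rw [← hiff]
      exact hval (xx h) (yy h) h r1 (hcl h hh h1 hh1)
    have hcard : (G.card : ℝ) ≤
        ({ℓ : ℕ | Squarefree ℓ ∧ (ℓ : ℝ) ≤ H ∧ SSN.Val a2 b2 c2 ℓ}.ncard : ℝ) := by
      have := Set.ncard_le_ncard hsub hf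
      rw [Set.ncard_coe_finset] at this
      exact_mod_cast this
    have hw0 : w ≠ 0 := by
      rintro rfl
      rw [hw] at hΔ
      simp at hΔ
    have hpleΔ : (p : ℝ) ≤ Δ := by
      have h3 : (p : ℤ) ≤ Δ := by
        rw [hΔ2, hD', hw]
        have h4 : 0 < w ^ 2 := by positivity
        have h5 : (0 : ℤ) ≤ p := Int.natCast_nonneg p
        nlinarith
      exact_mod_cast h3
    have hp0 : (0 : ℝ) < p := by exact_mod_cast hp
    have h4 : 7 * H / Real.sqrt Δ ≤ 7 * H / Real.sqrt p :=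
      div_le_div_of_nonneg_left (by positivity) (Real.sqrt_pos.2 hp0)
        (Real.sqrt_le_sqrt hpleΔ)
    linarith

/-- a squarefree number divides `m` if all its prime factors do -/
theorem sqfree_dvd {N : ℕ} (hN : Squarefree N) {m : ℤ}
    (h : ∀ l ∈ N.primeFactors, (l : ℤ) ∣ m) : (N : ℤ) ∣ m := by
  rw [Int.natCast_dvd, ← Nat.prod_primeFactors_of_squarefree hN]
  apply Finset.prod_primes_dvd
  · intro l hl
    exact (Nat.prime_of_mem_primeFactors hl).prime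
  · intro l hl
    exact Int.natCast_dvd.1 (h l hl)

theorem all_classes {a b c : ℤ} (hred : SSN.T_RED) {p : ℕ} (hp : 0 < p) {w : ℤ} (ha : 0 < a)
    (hΔ : 0 < 4 * a * c - b ^ 2) (hw : 4 * a * c - b ^ 2 = p * w ^ 2) {N : ℕ} (hN : Squarefree N)
    (hNΔ : ∀ l ∈ N.primeFactors, ¬ (l : ℤ) ∣ 4 * a * c - b ^ 2)
    {H : ℝ} (hH : 0 ≤ H) (G : Finset ℕ) (xx yy : ℕ → ℤ)
    (hG : ∀ h ∈ G, SSN.qf a b c (xx h) (yy h) = ((N * h : ℕ) : ℤ) ∧ Squarefree (N * h) ∧
      (h : ℝ) ≤ H) :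
    (G.card : ℝ) ≤ 2 ^ N.primeFactors.card * (1 + 7 * H / Real.sqrt p) := by
  classical
  have hNpos : 0 < N := Nat.pos_of_ne_zero hN.ne_zero
  rcases G.eq_empty_or_nonempty with he | ⟨h0, hh0⟩
  · rw [he, card_empty, Nat.cast_zero]
    positivity
  let σ : ℕ → Finset ℕ := fun h =>
    N.primeFactors.filter fun l => (l : ℤ) ∣ xx h * yy h0 - xx h0 * yy h
  have hσ : ∀ h ∈ G, σ h ∈ N.primeFactors.powerset := fun h _ =>
    Finset.mem_powerset.2 (Finset.filter_subset _ _)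
  have hcard := Finset.card_eq_sum_card_fiberwise (f := σ) (s := G) (t := N.primeFactors.powerset)
    hσ
  have hdvd : ∀ h ∈ G, ∀ l ∈ N.primeFactors, (l : ℤ) ∣ SSN.qf a b c (xx h) (yy h) := by
    intro h hh l hl
    rw [(hG h hh).1]
    have : l ∣ N * h := Dvd.dvd.mul_right (Nat.dvd_of_mem_primeFactors hl) _
    exact_mod_cast this
  have hfib : ∀ U ∈ N.primeFactors.powerset,
      ((G.filter fun h => σ h = U).card : ℝ) ≤ 1 + 7 * H / Real.sqrt p := by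
    intro U _
    apply one_class hred hp ha hΔ hw hNpos hH _ xx yy
    · intro h hh
      exact hG h (Finset.mem_filter.1 hh).1
    · intro h hh k hk
      obtain ⟨hhG, hhU⟩ := Finset.mem_filter.1 hh
      obtain ⟨hkG, hkU⟩ := Finset.mem_filter.1 hk
      apply sqfree_dvd hN
      intro l hl
      have hlp : l.Prime := Nat.prime_of_mem_primeFactors hl
      have hiff : ((l : ℤ) ∣ xx h * yy h0 - xx h0 * yy h) ↔
          ((l : ℤ) ∣ xx k * yy h0 - xx h0 * yy k) := by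
        have e1 : l ∈ σ h ↔ l ∈ σ k := by rw [hhU, hkU]
        simp only [σ, Finset.mem_filter, hl, true_and] at e1
        exact e1
      by_cases hd : (l : ℤ) ∣ xx h * yy h0 - xx h0 * yy h
      · exact prop_trans hlp (coprime_of_sqfree (hG h0 hh0).2.1 (hG h0 hh0).1) hd (hiff.1 hd)
      · exact two_roots hlp (hNΔ l hl) (hdvd h hhG l hl) (hdvd k hkG l hl) (hdvd h0 hh0 l hl) hd
          (fun h => hd (hiff.2 h))
  rw [hcard]
  push_cast
  calc ∑ U ∈ N.primeFactors.powerset, ((G.filter fun h => σ h = U).card : ℝ)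
      ≤ ∑ _U ∈ N.primeFactors.powerset, (1 + 7 * H / Real.sqrt p) := Finset.sum_le_sum hfib
    _ = 2 ^ N.primeFactors.card * (1 + 7 * H / Real.sqrt p) := by
        rw [Finset.sum_const, Finset.card_powerset, nsmul_eq_mul]
        push_cast
        ring

/-- `-p` is a square modulo the prime factors of a squarefree value -/
theorem ch_one {p : ℕ} (hp : p.Prime) {a b c w x y : ℤ} (hw : 4 * a * c - b ^ 2 = p * w ^ 2)
    {D : ℕ} (hD : Squarefree D) (hxy : SSN.qf a b c x y = D) {l : ℕ} (hl : l.Prime) (hl2 : 2 < l)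
    (hlp : l ≠ p) (hlD : l ∣ D) (hlw : ¬ (l : ℤ) ∣ w) : SSN.ch p l = 1 := by
  have hodd : ¬ Even l := by
    rw [Nat.not_even_iff_odd]
    exact hl.odd_of_ne_two (by omega)
  have : Fact l.Prime := ⟨hl⟩
  have hch : SSN.ch p l = legendreSym l (-(p : ℤ)) := by
    unfold SSN.ch
    rw [if_neg hodd, jacobiSym.legendreSym.to_jacobiSym]
  rw [hch]
  have hne0 : ((-(p : ℤ) : ℤ) : ZMod l) ≠ 0 := by
    push_cast
    rw [neg_ne_zero]
    intro h3
    rw [ZMod.natCast_eq_zero_iff] at h3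
    exact hlp ((Nat.prime_dvd_prime_iff_eq hl hp).1 h3)
  rcases legendreSym.eq_one_or_neg_one l hne0 with h3 | h3
  · exact h3
  · exfalso
    have hlpr : Prime (l : ℤ) := Nat.prime_iff_prime_int.1 hl
    have hlDZ : (l : ℤ) ∣ D := by exact_mod_cast hlD
    have hcop := coprime_of_sqfree hD hxy
    have h4 : (l : ℤ) ∣ (2 * a * x + b * y) ^ 2 - (-(p : ℤ)) * (w * y) ^ 2 := by
      have h5 : (2 * a * x + b * y) ^ 2 - (-(p : ℤ)) * (w * y) ^ 2 = 4 * a * D := by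
        rw [← hxy]
        unfold SSN.qf
        linear_combination (-(y ^ 2)) * hw
      rw [h5]
      exact Dvd.dvd.mul_left hlDZ _
    have h6 : (l : ℤ) ∣ (2 * c * y + b * x) ^ 2 - (-(p : ℤ)) * (w * x) ^ 2 := by
      have h5 : (2 * c * y + b * x) ^ 2 - (-(p : ℤ)) * (w * x) ^ 2 = 4 * c * D := by
        rw [← hxy]
        unfold SSN.qf
        linear_combination (-(x ^ 2)) * hw
      rw [h5]
      exact Dvd.dvd.mul_left hlDZ _
    have h7 := (legendreSym.prime_dvd_of_eq_neg_one h3 h4).2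
    have h8 := (legendreSym.prime_dvd_of_eq_neg_one h3 h6).2
    have h9 : (l : ℤ) ∣ y := (hlpr.dvd_or_dvd h7).resolve_left hlw
    have h10 : (l : ℤ) ∣ x := (hlpr.dvd_or_dvd h8).resolve_left hlw
    obtain ⟨s, t, hst⟩ := hcop
    have h11 : (l : ℤ) ∣ 1 := by
      rw [← hst]
      exact dvd_add (Dvd.dvd.mul_left h10 _) (Dvd.dvd.mul_left h9 _)
    exact hlpr.not_isUnit (isUnit_of_dvd_one h11)

end KI2_

open KI2_ in
theorem p_KI2 (h1 : SSN.T_RED) : T_KI2 := by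
  classical
  intro p F hp hp2 hF hBin T hT hN2
  have hT0 : 0 ≤ T := by linarith
  set Gs : Set ℕ := {D : ℕ | D ∈ F ∧ (D : ℝ) ≤ T} with hGs
  have hfin : Gs.Finite := by
    refine (Set.finite_Iic ⌊T⌋₊).subset fun D hD => ?_
    exact Nat.le_floor hD.2
  have hNS : NS F T = ((Gs.ncard : ℕ) : ℝ) := rfl
  have hN1 : 1 < Gs.ncard := by
    rw [hNS] at hN2
    have : (2 : ℕ) ≤ Gs.ncard := by exact_mod_cast hN2
    omega
  have hmem : ∀ D, D ∈ hfin.toFinset ↔ D ∈ F ∧ (D : ℝ) ≤ T := fun D => by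
    rw [Set.Finite.mem_toFinset, hGs, Set.mem_ofPred_eq]
  have hGcard : hfin.toFinset.card = Gs.ncard := (Set.ncard_eq_toFinset_card _ hfin).symm
  obtain ⟨a, b, c, w, ha, hΔ0, hpΔ, hval⟩ := hBin hfin.toFinset (by rw [hGcard]; exact hN1)
    (fun D hD => ((hmem D).1 hD).1)
  have hw0 : w ≠ 0 := by
    intro h0
    rw [hpΔ, h0] at hΔ0
    simp at hΔ0
  obtain ⟨D1, hD1, D2, hD2, hne⟩ : ∃ D1 ∈ hfin.toFinset, ∃ D2 ∈ hfin.toFinset, D1 ≠ D2 :=
    Finset.one_lt_card.1 (by rw [hGcard]; exact hN1)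
  have hv1 := hval D1 hD1
  have hv2 := hval D2 hD2
  rw [hmem] at hD1 hD2
  refine ⟨w.natAbs, Int.natAbs_pos.2 hw0, ?_, ?_, ?_⟩
  · -- the size of `w`
    obtain ⟨x, y, hxy⟩ := hv1
    obtain ⟨x', y', hxy'⟩ := hv2
    have e := pair_id a b c x y x' y'
    rw [hxy, hxy', hpΔ] at e
    have hdet : x * y' - x' * y ≠ 0 := by
      intro h0
      rw [h0] at e
      have h2 : 4 * (D1 : ℤ) * D2 = (bf a b c x y x' y') ^ 2 := by
        rw [e]
        ring
      have h3 : 4 * (D1 * D2) = (bf a b c x y x' y').natAbs ^ 2 := by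
        zify
        rw [sq_abs, ← h2]
        ring
      have h4 : 2 ∣ (bf a b c x y x' y').natAbs := by
        have h5 : 2 ∣ (bf a b c x y x' y').natAbs ^ 2 := by
          rw [← h3]
          omega
        exact Nat.prime_two.dvd_of_dvd_pow h5
      obtain ⟨k, hk⟩ := h4
      rw [hk] at h3
      have h5 : D1 * D2 = k ^ 2 := by nlinarith
      exact hne (SSC.KIL_.eq_of_sq (hF D1 hD1.1).2 (hF D2 hD2.1).2 h5)
    have h1' : (1 : ℤ) ≤ (x * y' - x' * y) ^ 2 := by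
      have : 0 < (x * y' - x' * y) ^ 2 := by positivity
      omega
    have h2 : w ^ 2 ≤ 4 * (D1 : ℤ) * D2 := by
      rw [e]
      have h3 : (1 : ℤ) ≤ p := by exact_mod_cast hp.one_lt.le
      have h4 : 0 ≤ w ^ 2 := sq_nonneg w
      have h5 : w ^ 2 ≤ p * w ^ 2 := by nlinarith
      have h6 : p * w ^ 2 ≤ p * w ^ 2 * (x * y' - x' * y) ^ 2 := by
        have : 0 ≤ (p : ℤ) * w ^ 2 := by positivity
        nlinarith
      have h7 := sq_nonneg (bf a b c x y x' y')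
      linarith
    have h3 : (w : ℝ) ^ 2 ≤ 4 * D1 * D2 := by exact_mod_cast h2
    have h4 : (w : ℝ) ^ 2 ≤ (2 * T) ^ 2 := by
      have h5 : (D1 : ℝ) * D2 ≤ T * T := mul_le_mul hD1.2 hD2.2 (Nat.cast_nonneg _) hT0
      nlinarith
    have h5 := abs_le_of_sq_le_sq h4 (by linarith)
    have h6 : ((w.natAbs : ℕ) : ℝ) = |(w : ℝ)| := by
      rw [Nat.cast_natAbs, Int.cast_abs]
    rw [h6]
    exact h5
  · intro D hD hDT l hl hl2 hlp hlD hlw
    obtain ⟨x, y, hxy⟩ := hval D ((hmem D).2 ⟨hD, hDT⟩)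
    exact ch_one hp hpΔ (hF D hD).2 hxy hl hl2 hlp hlD
      (fun h => hlw (Int.natCast_dvd.1 h))
  · intro N H hN hNl hH G hG
    have hex : ∀ h : ℕ, ∃ xy : ℤ × ℤ, h ∈ G →
        SSN.qf a b c xy.1 xy.2 = ((N * h : ℕ) : ℤ) := by
      intro h
      by_cases hh : h ∈ G
      · obtain ⟨q1, q2, -⟩ := hG h hh
        obtain ⟨x, y, hxy⟩ := hval (N * h) ((hmem _).2 ⟨q1, q2⟩)
        exact ⟨(x, y), fun _ => hxy⟩
      · exact ⟨(0, 0), fun h' => absurd h' hh⟩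
    choose f hf using hex
    refine all_classes h1 hp.pos ha hΔ0 hpΔ hN ?_ hH G (fun h => (f h).1) (fun h => (f h).2) ?_
    · intro l hl hdv
      have hlp := Nat.prime_of_mem_primeFactors hl
      obtain ⟨q1, q2, q3⟩ := hNl l hlp (Nat.dvd_of_mem_primeFactors hl)
      rw [hpΔ] at hdv
      have hlpr : Prime (l : ℤ) := Nat.prime_iff_prime_int.1 hlp
      rcases hlpr.dvd_or_dvd hdv with h | h
      · have h' : l ∣ p := by exact_mod_cast h
        exact q2 ((Nat.prime_dvd_prime_iff_eq hlp hp).1 h')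
      · exact q3 (Int.natCast_dvd.1 (hlpr.dvd_of_dvd_pow h))
    · intro h hh
      obtain ⟨q1, q2, q3⟩ := hG h hh
      exact ⟨hf h hh, (hF _ q1).2, q3⟩

end SSE
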