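import Pool.Agent.SSE.Targets
import Pool.Agent.SSC.TUP

/-!
# KT2: the tuples killed by one prime `p ≤ z`
-/

set_option autoImplicit false

open scoped BigOperators Classical
open Finset

namespace SSE

open SSC

/-- counting by fibres of `t ↦ (t.1, t.2.1)` -/
theorem KT2_.fib (V : Finset (ℕ × Finset ℕ × ℕ)) (P : Finset (ℕ × Finset ℕ))
    (f : ℕ × Finset ℕ → ℝ) (h1 : ∀ t ∈ V, (t.1, t.2.1) ∈ P)
    (h2 : ∀ s ∈ P, (((V.filter fun t => (t.1, t.2.1) = s).card : ℕ) : ℝ) ≤ f s) :
    (V.card : ℝ) ≤ ∑ s ∈ P, f s := by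
  have h3 := Finset.card_eq_sum_card_fiberwise (f := fun t : ℕ × Finset ℕ × ℕ => (t.1, t.2.1))
    (s := V) (t := P) (fun t ht => h1 t ht)
  rw [h3]
  push_cast
  exact Finset.sum_le_sum fun s hs => h2 s hs

/-- the trivial bound for a fibre -/
theorem KT2_.triv {S : Set ℕ} {M : ℕ} {ρ Y z Z : ℝ} {m : ℕ} (hρ2 : ρ ≤ 2) (hY : 32 ≤ Y)
    (hz : 2 ≤ z) (hZ : z ≤ Z) (V : Finset (ℕ × Finset ℕ × ℕ)) (hV : V ⊆ UU S M ρ Y z Z m)
    (s : ℕ × Finset ℕ) :
    (((V.filter fun t => (t.1, t.2.1) = s).card : ℕ) : ℝ) ≤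
      2 * (s.1 : ℝ) * ∏ l ∈ s.2, 1 / (l : ℝ) := by
  have h1 : (V.filter fun t => (t.1, t.2.1) = s).card ≤ (Icc 1 (2 * s.1 / ∏ l ∈ s.2, l)).card := by
    refine Finset.card_le_card_of_injOn (fun t => t.2.2) ?_ ?_
    · intro t ht
      rw [Finset.mem_coe, mem_filter] at ht
      obtain ⟨h1, h2, h3⟩ := TUP_.mem (hV ht.1)
      rw [mem_powersetCard] at h2
      obtain ⟨a1, -, -, -⟩ := TUP_.memA (by linarith) h1
      obtain ⟨h0, -, b2, -, -, -⟩ := TUP_.memH h3
      have hap : (0 : ℝ) < t.1 := by exact_mod_cast a1.pos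
      have hs1 : t.1 = s.1 := by rw [← ht.2]
      have hs2 : t.2.1 = s.2 := by rw [← ht.2]
      rw [Finset.mem_coe, mem_Icc, ← hs1, ← hs2]
      refine ⟨h0, ?_⟩
      have hΛ : 0 < ∏ l ∈ t.2.1, l :=
        Finset.prod_pos fun l hl => (TUP_.memL (by linarith) (h2.1 hl)).1.pos
      rw [Nat.le_div_iff_mul_le hΛ]
      have : ((∏ l ∈ t.2.1, l : ℕ) : ℝ) * t.2.2 ≤ 2 * t.1 := by nlinarith
      have h5 : (∏ l ∈ t.2.1, l) * t.2.2 ≤ 2 * t.1 := by exact_mod_cast this
      rw [mul_comm]
      exact h5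
    · intro t ht t' ht' hh
      rw [Finset.mem_coe, mem_filter] at ht ht'
      have e := ht.2.trans ht'.2.symm
      have e1 : t.1 = t'.1 := (Prod.mk.inj e).1
      have e2 : t.2.1 = t'.2.1 := (Prod.mk.inj e).2
      exact Prod.ext e1 (Prod.ext e2 hh)
  rw [Nat.card_Icc, Nat.add_sub_cancel] at h1
  calc (((V.filter fun t => (t.1, t.2.1) = s).card : ℕ) : ℝ)
      ≤ ((2 * s.1 / ∏ l ∈ s.2, l : ℕ) : ℝ) := by exact_mod_cast h1
    _ ≤ 2 * (s.1 : ℝ) * ∏ l ∈ s.2, 1 / (l : ℝ) := by
        refine Nat.cast_div_le.trans (le_of_eq ?_)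
        push_cast
        rw [div_eq_mul_inv, ← Finset.prod_inv_distrib]
        simp only [one_div]

theorem KT2_.em_nonneg (A : Finset ℕ) (m : ℕ) : 0 ≤ em A m :=
  Finset.sum_nonneg fun _ _ => Finset.prod_nonneg fun _ _ => by positivity

theorem KT2_.RR_nonneg (S : Set ℕ) (Y : ℝ) : 0 ≤ RR S Y :=
  Finset.sum_nonneg fun _ _ => by positivity

theorem KT2_.err_nonneg (S : Set ℕ) (Y z Z : ℝ) (m : ℕ) (hY : 32 ≤ Y) (hz : 3 ≤ z) :
    (4 * Real.log Y) ^ m ≤ err S Y z Z m := by
  have hl := Real.log_nonneg (by linarith : (1 : ℝ) ≤ Y)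
  have h1 := KT2_.em_nonneg (LL S z Z) m
  have h2 := KT2_.em_nonneg (LL S z Z) (m - 1)
  have h3 := KT2_.RR_nonneg S Y
  have h4 : 0 ≤ Real.log Y / z := by positivity
  unfold err
  have h5 : 0 ≤ 8 * Y * Real.log Y * em (LL S z Z) m := by positivity
  have h6 : 0 ≤ 8 * RR S Y * (Real.log Y / z) * em (LL S z Z) (m - 1) := by positivity
  linarith

/-- sets `T` containing a bad prime -/
theorem KT2_.bad (A B : Finset ℕ) (z : ℝ) (m : ℕ) (hz : 0 < z) (hA : ∀ l ∈ A, z < (l : ℝ)) :
    ∑ T ∈ (A.powersetCard m).filter (fun T => ∃ l ∈ T, l ∈ B), ∏ l ∈ T, 1 / (l : ℝ) ≤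
      (B.card : ℝ) / z * em A (m - 1) := by
  have hnn : ∀ T : Finset ℕ, 0 ≤ ∏ l ∈ T, 1 / (l : ℝ) := fun T =>
    Finset.prod_nonneg fun _ _ => by positivity
  have h1 : ∑ T ∈ (A.powersetCard m).filter (fun T => ∃ l ∈ T, l ∈ B), ∏ l ∈ T, 1 / (l : ℝ) ≤
      ∑ l ∈ B.filter (fun l => l ∈ A), ∑ T ∈ (A.powersetCard m).filter (fun T => l ∈ T),
        ∏ l ∈ T, 1 / (l : ℝ) := by
    have h2 : ∀ l ∈ B.filter (fun l => l ∈ A),
        ∑ T ∈ (A.powersetCard m).filter (fun T => l ∈ T), ∏ l ∈ T, 1 / (l : ℝ) =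
        ∑ T ∈ A.powersetCard m, if l ∈ T then ∏ l ∈ T, 1 / (l : ℝ) else 0 := by
      intro l _
      rw [Finset.sum_filter]
    rw [Finset.sum_congr rfl h2, Finset.sum_comm, Finset.sum_filter]
    refine Finset.sum_le_sum fun T hT => ?_
    split_ifs with hex
    · obtain ⟨l, hl, hlB⟩ := hex
      have h3 : l ∈ B.filter (fun l => l ∈ A) := by
        rw [mem_filter]
        exact ⟨hlB, (mem_powersetCard.1 hT).1 hl⟩
      have h4 := Finset.single_le_sum
        (f := fun l => if l ∈ T then ∏ l ∈ T, 1 / (l : ℝ) else 0)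
        (s := B.filter (fun l => l ∈ A)) (fun i _ => by
          split_ifs
          · exact hnn T
          · exact le_rfl) h3
      simp only [if_pos hl] at h4
      exact h4
    · refine Finset.sum_nonneg fun i _ => ?_
      split_ifs
      · exact hnn T
      · exact le_rfl
  have h3 : ∀ l ∈ B.filter (fun l => l ∈ A),
      ∑ T ∈ (A.powersetCard m).filter (fun T => l ∈ T), ∏ l ∈ T, 1 / (l : ℝ) ≤
        1 / z * em A (m - 1) := by
    intro l hl
    rw [mem_filter] at hl
    have hlz := hA l hl.2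
    have hlpos : (0 : ℝ) < l := hz.trans hlz
    calc ∑ T ∈ (A.powersetCard m).filter (fun T => l ∈ T), ∏ l ∈ T, 1 / (l : ℝ)
        = ∑ T ∈ (A.powersetCard m).filter (fun T => l ∈ T),
            1 / (l : ℝ) * ∏ l ∈ T.erase l, 1 / (l : ℝ) := by
          refine Finset.sum_congr rfl fun T hT => ?_
          rw [mem_filter] at hT
          exact (Finset.mul_prod_erase T (fun l : ℕ => 1 / (l : ℝ)) hT.2).symm
      _ = 1 / (l : ℝ) * ∑ T ∈ (A.powersetCard m).filter (fun T => l ∈ T),
            ∏ l ∈ T.erase l, 1 / (l : ℝ) := by rw [Finset.mul_sum]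
      _ = 1 / (l : ℝ) * ∑ T ∈ (((A.powersetCard m).filter (fun T => l ∈ T)).image
            (fun T : Finset ℕ => T.erase l) : Finset (Finset ℕ)), ∏ l ∈ T, 1 / (l : ℝ) := by
          rw [Finset.sum_image]
          intro T hT T' hT' he
          rw [Finset.mem_coe, mem_filter] at hT hT'
          have he' : T.erase l = T'.erase l := he
          rw [← Finset.insert_erase hT.2, ← Finset.insert_erase hT'.2, he']
      _ ≤ 1 / (l : ℝ) * em A (m - 1) := by
          refine mul_le_mul_of_nonneg_left ?_ (by positivity)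
          unfold em
          refine Finset.sum_le_sum_of_subset_of_nonneg ?_ fun T _ _ => hnn T
          intro T hT
          rw [mem_image] at hT
          obtain ⟨U, hU, rfl⟩ := hT
          rw [mem_filter, mem_powersetCard] at hU
          rw [mem_powersetCard]
          refine ⟨(Finset.erase_subset _ _).trans hU.1.1, ?_⟩
          rw [Finset.card_erase_of_mem hU.2, hU.1.2]
      _ ≤ 1 / z * em A (m - 1) := by
          refine mul_le_mul_of_nonneg_right ?_ (KT2_.em_nonneg _ _)
          exact one_div_le_one_div_of_le hz hlz.le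
  refine h1.trans ((Finset.sum_le_sum h3).trans ?_)
  rw [Finset.sum_const, nsmul_eq_mul]
  have h4 : ((B.filter (fun l => l ∈ A)).card : ℝ) ≤ B.card := by
    exact_mod_cast Finset.card_filter_le _ _
  calc ((B.filter (fun l => l ∈ A)).card : ℝ) * (1 / z * em A (m - 1))
      ≤ (B.card : ℝ) * (1 / z * em A (m - 1)) := by
        refine mul_le_mul_of_nonneg_right h4 ?_
        have := KT2_.em_nonneg A (m - 1)
        positivity
    _ = (B.card : ℝ) / z * em A (m - 1) := by ring

theorem KT2_.omega (Y : ℝ) (w : ℕ) (hw : w ≠ 0) (hY : 32 ≤ Y) (hw2 : (w : ℝ) ≤ 4 * Y ^ 2) :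
    (w.primeFactors.card : ℝ) ≤ 4 * Real.log Y := by
  have h1 : 2 ^ w.primeFactors.card ≤ w := by
    calc 2 ^ w.primeFactors.card ≤ ∏ p ∈ w.primeFactors, p :=
          Finset.pow_card_le_prod _ _ _ fun p hp => (Nat.prime_of_mem_primeFactors hp).two_le
      _ ≤ w := Nat.le_of_dvd (Nat.pos_of_ne_zero hw) (Nat.prod_primeFactors_dvd w)
  have h2 : (2 : ℝ) ^ w.primeFactors.card ≤ 4 * Y ^ 2 := by
    refine le_trans ?_ hw2
    exact_mod_cast h1
  have hYpos : 0 < Y := by linarith
  have h3 := Real.log_le_log (by positivity) h2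
  rw [Real.log_pow, Real.log_mul (by norm_num) (by positivity), Real.log_pow] at h3
  push_cast at h3
  have h4 : 5 * Real.log 2 ≤ Real.log Y := by
    have : Real.log 32 ≤ Real.log Y := Real.log_le_log (by norm_num) hY
    have h5 : (32 : ℝ) = 2 ^ 5 := by norm_num
    rw [h5, Real.log_pow] at this
    push_cast at this
    exact this
  have h5 : 0.6931471803 < Real.log 2 := Real.log_two_gt_d9
  have h6 : Real.log 2 < 0.6931471808 := Real.log_two_lt_d9
  have h7 : Real.log 4 = 2 * Real.log 2 := by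
    rw [show (4 : ℝ) = 2 ^ 2 by norm_num, Real.log_pow]
    norm_num
  rw [h7] at h3
  by_contra h8
  push Not at h8
  nlinarith

theorem p_KT2 (h1 : T_KI2) (h2 : SSC.T_TUP) : T_KT2 := by
  intro S K M ρ Y z Z m hD hY hz hZ hZm p hpS hpz V hV hVK
  obtain ⟨hM, hρ1, hρ2, hSp, -, hBin⟩ := hD
  have hYpos : 0 < Y := by linarith
  have hz0 : 0 < z := by linarith
  have hZ1 : 1 ≤ Z := by linarith
  have hlog := Real.log_nonneg (by linarith : (1 : ℝ) ≤ Y)
  have hSp' : ∀ p ∈ S, p.Prime := fun q hq => (hSp q hq).1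
  have hpp := (hSp p hpS).1
  have hp2 := (hSp p hpS).2
  have hppos : (0 : ℝ) < p := by exact_mod_cast hpp.pos
  have hZm' : Z ^ m ≤ Y / 16 := by
    refine le_trans ?_ hZm
    exact pow_le_pow_right₀ hZ1 (Nat.le_succ m)
  obtain ⟨T1, T2, -⟩ := h2 S M ρ Y z Z m hSp' hM hρ1 hρ2 hY (by linarith) hZ hZm'
  have hRR := KT2_.RR_nonneg S Y
  have herr := KT2_.err_nonneg S Y z Z m hY hz
  have hlast : 0 ≤ RR S Y * em ((LL S z Z).filter fun l => SSN.ch p l = 1) m *
      min 2 (30 * 2 ^ m / Real.sqrt p) := by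
    have := KT2_.em_nonneg ((LL S z Z).filter fun l => SSN.ch p l = 1) m
    have h3 : (0 : ℝ) ≤ min 2 (30 * 2 ^ m / Real.sqrt p) := le_min (by norm_num) (by positivity)
    positivity
  set F : Set ℕ := {D : ℕ | Adm M ρ D ∧ K D p} with hF
  have hF1 : ∀ D ∈ F, 0 < D ∧ Squarefree D := by
    intro D hDF
    obtain ⟨a, c, ha, hDe, hac, -, hsq, -⟩ := hDF.1
    refine ⟨?_, hsq⟩
    exact Nat.pos_of_ne_zero hsq.ne_zero
  have hVF : ∀ t ∈ V, dd t ∈ F ∧ ((dd t : ℕ) : ℝ) ≤ 2 * Y ^ 2 := by
    intro t ht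
    have h3 := T1 t (hV ht)
    exact ⟨⟨h3.1, hVK t ht⟩, h3.2.2.1⟩
  by_cases hN : 2 ≤ NS F (2 * Y ^ 2)
  · obtain ⟨w, hw0, hw2, hwch, hwc⟩ := h1 p F hpp hp2 hF1 (hBin p hpS) (2 * Y ^ 2)
      (by nlinarith) hN
    set B := w.primeFactors with hB
    have hBcard : (B.card : ℝ) ≤ 4 * Real.log Y :=
      KT2_.omega Y w hw0.ne' hY (by linarith)
    have hBmem : ∀ l : ℕ, l.Prime → l ∉ B → ¬ l ∣ w := fun l hl hlB hlw =>
      hlB (Nat.mem_primeFactors.2 ⟨hl, hlw, hw0.ne'⟩)
    set V1 := V.filter fun t => t.1 ∈ B with hV1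
    set V2 := V.filter fun t => ∃ l ∈ t.2.1, l ∈ B with hV2
    set V3 := V.filter fun t => t.1 ∉ B ∧ ∀ l ∈ t.2.1, l ∉ B with hV3
    have hcov : (V.card : ℝ) ≤ V1.card + V2.card + V3.card := by
      have : V ⊆ (V1 ∪ V2) ∪ V3 := by
        intro t ht
        rw [mem_union, mem_union, hV1, hV2, hV3, mem_filter, mem_filter, mem_filter]
        by_cases c1 : t.1 ∈ B
        · exact Or.inl (Or.inl ⟨ht, c1⟩)
        · by_cases c2 : ∃ l ∈ t.2.1, l ∈ B
          · exact Or.inl (Or.inr ⟨ht, c2⟩)
          · push Not at c2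
            exact Or.inr ⟨ht, c1, c2⟩
      have h3 := Finset.card_le_card this
      have h4 := Finset.card_union_le (V1 ∪ V2) V3
      have h5 := Finset.card_union_le V1 V2
      have h6 : V.card ≤ V1.card + V2.card + V3.card := by omega
      exact_mod_cast h6
    -- V1
    have hb1 : (V1.card : ℝ) ≤ 8 * Y * Real.log Y * em (LL S z Z) m := by
      have h3 := KT2_.fib V1 (((AA S Y).filter fun a => a ∈ B) ×ˢ ((LL S z Z).powersetCard m))
        (fun s => 2 * (s.1 : ℝ) * ∏ l ∈ s.2, 1 / (l : ℝ)) (by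
          intro t ht
          rw [hV1, mem_filter] at ht
          obtain ⟨c1, c2, -⟩ := TUP_.mem (hV ht.1)
          rw [mem_product, mem_filter]
          exact ⟨⟨c1, ht.2⟩, c2⟩) (fun s _ => KT2_.triv hρ2 hY (by linarith) hZ V1
            ((Finset.filter_subset _ _).trans hV) s)
      refine h3.trans ?_
      rw [Finset.sum_product]
      simp only [← Finset.mul_sum]
      rw [← Finset.sum_mul]
      have h4 : ∑ a ∈ (AA S Y).filter (fun a => a ∈ B), 2 * (a : ℝ) ≤ 8 * Y * Real.log Y := by
        calc ∑ a ∈ (AA S Y).filter (fun a => a ∈ B), 2 * (a : ℝ)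
            ≤ ∑ a ∈ (AA S Y).filter (fun a => a ∈ B), 2 * Y := by
              refine Finset.sum_le_sum fun a ha => ?_
              rw [mem_filter] at ha
              have := (TUP_.memA hYpos.le ha.1).2.2.1
              linarith
          _ = (((AA S Y).filter fun a => a ∈ B).card : ℝ) * (2 * Y) := by
              rw [Finset.sum_const, nsmul_eq_mul]
          _ ≤ (B.card : ℝ) * (2 * Y) := by
              refine mul_le_mul_of_nonneg_right ?_ (by positivity)
              have : (AA S Y).filter (fun a => a ∈ B) ⊆ B := by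
                intro a ha
                exact (mem_filter.1 ha).2
              exact_mod_cast Finset.card_le_card this
          _ ≤ (4 * Real.log Y) * (2 * Y) := by
              refine mul_le_mul_of_nonneg_right hBcard (by positivity)
          _ = 8 * Y * Real.log Y := by ring
      exact mul_le_mul_of_nonneg_right h4 (KT2_.em_nonneg _ _)
    -- V2
    have hb2 : (V2.card : ℝ) ≤ 8 * RR S Y * (Real.log Y / z) * em (LL S z Z) (m - 1) := by
      have h3 := KT2_.fib V2 ((AA S Y) ×ˢ (((LL S z Z).powersetCard m).filter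
        fun T => ∃ l ∈ T, l ∈ B))
        (fun s => 2 * (s.1 : ℝ) * ∏ l ∈ s.2, 1 / (l : ℝ)) (by
          intro t ht
          rw [hV2, mem_filter] at ht
          obtain ⟨c1, c2, -⟩ := TUP_.mem (hV ht.1)
          rw [mem_product, mem_filter]
          exact ⟨c1, c2, ht.2⟩) (fun s _ => KT2_.triv hρ2 hY (by linarith) hZ V2
            ((Finset.filter_subset _ _).trans hV) s)
      refine h3.trans ?_
      rw [Finset.sum_product]
      simp only [← Finset.mul_sum]
      rw [← Finset.sum_mul, ← Finset.mul_sum]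
      have h4 := KT2_.bad (LL S z Z) B z m hz0 (fun l hl => (TUP_.memL (by linarith) hl).2.1)
      have h5 : 0 ≤ 2 * ∑ i ∈ AA S Y, (i : ℝ) := by
        have : 0 ≤ ∑ i ∈ AA S Y, (i : ℝ) := hRR
        linarith
      refine (mul_le_mul_of_nonneg_left h4 h5).trans ?_
      have h6 : (B.card : ℝ) / z ≤ 4 * Real.log Y / z := by gcongr
      have h7 := KT2_.em_nonneg (LL S z Z) (m - 1)
      calc 2 * (∑ i ∈ AA S Y, (i : ℝ)) * ((B.card : ℝ) / z * em (LL S z Z) (m - 1))
          ≤ 2 * (∑ i ∈ AA S Y, (i : ℝ)) * (4 * Real.log Y / z * em (LL S z Z) (m - 1)) := by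
            gcongr
        _ = 8 * RR S Y * (Real.log Y / z) * em (LL S z Z) (m - 1) := by
            unfold RR
            ring
    -- V3
    have hb3 : (V3.card : ℝ) ≤ RR S Y * em ((LL S z Z).filter fun l => SSN.ch p l = 1) m *
        min 2 (30 * 2 ^ m / Real.sqrt p) := by
      have h3 := KT2_.fib V3 ((AA S Y) ×ˢ (((LL S z Z).filter fun l => SSN.ch p l = 1).powersetCard m))
        (fun s => (s.1 : ℝ) * (∏ l ∈ s.2, 1 / (l : ℝ)) * min 2 (30 * 2 ^ m / Real.sqrt p)) (by
          intro t ht
          rw [hV3, mem_filter] at ht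
          obtain ⟨htV, hta, htl⟩ := ht
          obtain ⟨c1, c2, -⟩ := TUP_.mem (hV htV)
          rw [mem_powersetCard] at c2
          rw [mem_product, mem_powersetCard]
          refine ⟨c1, ?_, c2.2⟩
          intro l hl
          rw [mem_filter]
          refine ⟨c2.1 hl, ?_⟩
          obtain ⟨l1, l2, -, -⟩ := TUP_.memL (by linarith) (c2.1 hl)
          refine hwch (dd t) (hVF t htV).1 (hVF t htV).2 l l1 ?_ ?_ ?_ (hBmem l l1 (htl l hl))
          · have : (2 : ℝ) < l := by linarith
            exact_mod_cast this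
          · rintro rfl
            linarith
          · exact (T1 t (hV htV)).2.2.2.2 l hl) ?_
      · refine h3.trans (le_of_eq ?_)
        rw [Finset.sum_product]
        simp only [← Finset.sum_mul, ← Finset.mul_sum]
        rfl
      · intro s hs
        rw [mem_product, mem_powersetCard] at hs
        obtain ⟨hsa, hsT, hsm⟩ := hs
        obtain ⟨a1, a2, a3, a4⟩ := TUP_.memA hYpos.le hsa
        have hapos : (0 : ℝ) < s.1 := by exact_mod_cast a1.pos
        have htr := KT2_.triv hρ2 hY (by linarith) hZ V3 ((Finset.filter_subset _ _).trans hV) s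
        rw [mul_min_of_nonneg _ _ (by
          have : 0 ≤ ∏ l ∈ s.2, 1 / (l : ℝ) := Finset.prod_nonneg fun _ _ => by positivity
          positivity)]
        refine le_min (htr.trans (le_of_eq (by ring))) ?_
        -- the form bound
        rcases (V3.filter fun t => (t.1, t.2.1) = s).eq_empty_or_nonempty with he | ⟨t0, ht0⟩
        · rw [he, card_empty, Nat.cast_zero]
          have : 0 ≤ ∏ l ∈ s.2, 1 / (l : ℝ) := Finset.prod_nonneg fun _ _ => by positivity
          positivity
        rw [mem_filter] at ht0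
        have hsl : ∀ l ∈ s.2, l.Prime ∧ z < (l : ℝ) ∧ (l : ℝ) ≤ Z := by
          intro l hl
          have := TUP_.memL (by linarith) (mem_filter.1 (hsT hl)).1
          exact ⟨this.1, this.2.1, this.2.2.1⟩
        have ht0V := mem_filter.1 ht0.1
        have hs1 : t0.1 = s.1 := by rw [← ht0.2]
        have hs2 : t0.2.1 = s.2 := by rw [← ht0.2]
        set Λ := ∏ l ∈ s.2, l with hΛ
        have hΛpos : 0 < Λ := Finset.prod_pos fun l hl => (hsl l hl).1.pos
        have hΛr : (0 : ℝ) < Λ := by exact_mod_cast hΛpos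
        have hsqf : Squarefree (s.1 * Λ) := by
          have h4 := (hF1 _ (hVF t0 ht0V.1).1).2
          unfold dd at h4
          rw [hs1, hs2] at h4
          exact h4.squarefree_of_dvd (dvd_mul_right _ _)
        have hpf : ∀ l : ℕ, l.Prime → l ∣ s.1 * Λ → l = s.1 ∨ l ∈ s.2 := by
          intro l hl hld
          rcases hl.dvd_mul.1 hld with h4 | h4
          · exact Or.inl ((Nat.prime_dvd_prime_iff_eq hl a1).1 h4)
          · rw [hΛ, hl.prime.dvd_finsetProd_iff] at h4
            obtain ⟨l', hl', hll⟩ := h4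
            rw [(Nat.prime_dvd_prime_iff_eq hl (hsl l' hl').1).1 hll]
            exact Or.inr hl'
        have hcardpf : (s.1 * Λ).primeFactors.card ≤ m + 1 := by
          have : (s.1 * Λ).primeFactors ⊆ insert s.1 s.2 := by
            intro l hl
            rw [Nat.mem_primeFactors] at hl
            rw [mem_insert]
            exact hpf l hl.1 hl.2.1
          refine (Finset.card_le_card this).trans ((Finset.card_insert_le _ _).trans ?_)
          rw [hsm]
        have hprod : (∏ l ∈ s.2, 1 / (l : ℝ)) = 1 / (Λ : ℝ) := by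
          rw [hΛ]
          push_cast
          simp only [one_div]
          exact Finset.prod_inv_distrib _
        have hz16 : z ≤ Y / 16 := by
          calc z ≤ Z := hZ
            _ = Z ^ 1 := (pow_one Z).symm
            _ ≤ Z ^ (m + 1) := pow_le_pow_right₀ hZ1 (by omega)
            _ ≤ Y / 16 := hZm
        have hmain := hwc (s.1 * Λ) (2 * s.1 / Λ) hsqf (by
          intro l hl hld
          rcases hpf l hl hld with h4 | h4
          · have h5 : z < (l : ℝ) := by rw [h4]; linarith
            refine ⟨?_, ?_, ?_⟩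
            · have : (2 : ℝ) < l := by linarith
              exact_mod_cast this
            · rintro rfl
              linarith
            · refine hBmem l hl ?_
              rw [h4, ← hs1]
              exact ht0V.2.1
          · obtain ⟨-, l2, -⟩ := hsl l h4
            refine ⟨?_, ?_, ?_⟩
            · have : (2 : ℝ) < l := by linarith
              exact_mod_cast this
            · rintro rfl
              linarith
            · refine hBmem l hl (ht0V.2.2 l ?_)
              rw [hs2]
              exact h4) (by positivity)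
          ((V3.filter fun t => (t.1, t.2.1) = s).image fun t => t.2.2) (by
            intro h hh
            rw [mem_image] at hh
            obtain ⟨t, ht, rfl⟩ := hh
            rw [mem_filter] at ht
            have htV := (mem_filter.1 ht.1).1
            have e1 : t.1 = s.1 := by rw [← ht.2]
            have e2 : t.2.1 = s.2 := by rw [← ht.2]
            have e3 : s.1 * Λ * t.2.2 = dd t := by
              unfold dd
              rw [e1, e2]
            rw [e3]
            refine ⟨(hVF t htV).1, (hVF t htV).2, ?_⟩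
            obtain ⟨-, -, c3⟩ := TUP_.mem (hV htV)
            obtain ⟨-, -, b2, -, -, -⟩ := TUP_.memH c3
            rw [e1, e2, ← hΛ] at b2
            rw [le_div_iff₀ hΛr]
            nlinarith)
        have hcardim : ((V3.filter fun t => (t.1, t.2.1) = s).image fun t => t.2.2).card =
            (V3.filter fun t => (t.1, t.2.1) = s).card := by
          refine Finset.card_image_of_injOn ?_
          intro t ht t' ht' hh
          rw [Finset.mem_coe, mem_filter] at ht ht'
          have e := ht.2.trans ht'.2.symm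
          have e1 : t.1 = t'.1 := (Prod.mk.inj e).1
          have e2 : t.2.1 = t'.2.1 := (Prod.mk.inj e).2
          exact Prod.ext e1 (Prod.ext e2 hh)
        rw [hcardim] at hmain
        refine hmain.trans ?_
        have hsq : 0 < Real.sqrt p := Real.sqrt_pos.2 hppos
        -- Λ √p ≤ a
        have hΛZ : (Λ : ℝ) ≤ Z ^ m := by
          rw [hΛ]
          push_cast
          calc ∏ l ∈ s.2, (l : ℝ) ≤ ∏ l ∈ s.2, Z :=
                Finset.prod_le_prod (fun l _ => by positivity) fun l hl => (hsl l hl).2.2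
            _ = Z ^ m := by rw [Finset.prod_const, hsm]
        have hspZ : Real.sqrt p ≤ Z := by
          have h4 : (1 : ℝ) ≤ p := by exact_mod_cast hpp.one_le
          have h5 : Real.sqrt p ≤ p := by
            rw [Real.sqrt_le_left (by linarith)]
            nlinarith
          linarith
        have hX : 1 ≤ (s.1 : ℝ) / Λ / Real.sqrt p := by
          rw [div_div, le_div_iff₀ (by positivity), one_mul]
          calc (Λ : ℝ) * Real.sqrt p ≤ Z ^ m * Z :=
                mul_le_mul hΛZ hspZ (Real.sqrt_nonneg _) (by positivity)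
            _ = Z ^ (m + 1) := (pow_succ Z m).symm
            _ ≤ s.1 := by linarith
        have h2pow : (2 : ℝ) ^ (s.1 * Λ).primeFactors.card ≤ 2 ^ (m + 1) :=
          pow_le_pow_right₀ (by norm_num) hcardpf
        calc (2 : ℝ) ^ (s.1 * Λ).primeFactors.card * (1 + 7 * (2 * s.1 / Λ) / Real.sqrt p)
            ≤ 2 ^ (m + 1) * (1 + 7 * (2 * s.1 / Λ) / Real.sqrt p) := by
              refine mul_le_mul_of_nonneg_right h2pow (by positivity)
          _ = 2 ^ m * (2 + 28 * ((s.1 : ℝ) / Λ / Real.sqrt p)) := by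
              rw [pow_succ]
              ring
          _ ≤ 2 ^ m * (30 * ((s.1 : ℝ) / Λ / Real.sqrt p)) := by
              refine mul_le_mul_of_nonneg_left ?_ (by positivity)
              linarith
          _ = (s.1 : ℝ) * (∏ l ∈ s.2, 1 / (l : ℝ)) * (30 * 2 ^ m / Real.sqrt p) := by
              rw [hprod]
              ring
    unfold err
    have hpow : 0 ≤ (4 * Real.log Y) ^ m := by positivity
    linarith
  · -- at most one value of `dd`
    refine le_trans ?_ (le_trans herr (by linarith))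
    rcases V.eq_empty_or_nonempty with he | ⟨t0, ht0⟩
    · rw [he, card_empty, Nat.cast_zero]
      positivity
    have hfin : {D : ℕ | D ∈ F ∧ (D : ℝ) ≤ 2 * Y ^ 2}.Finite := by
      refine (Set.finite_Iic ⌊2 * Y ^ 2⌋₊).subset ?_
      intro D hD
      exact Nat.le_floor hD.2
    have hall : ∀ t ∈ V, dd t = dd t0 := by
      intro t ht
      by_contra hne
      apply hN
      unfold NS
      have : ({dd t, dd t0} : Set ℕ) ⊆ {D : ℕ | D ∈ F ∧ (D : ℝ) ≤ 2 * Y ^ 2} := by
        intro D hD
        rcases hD with rfl | hD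
        · exact hVF t ht
        · rw [Set.mem_singleton_iff] at hD
          rw [hD]
          exact hVF t0 ht0
      have h3 := Set.ncard_le_ncard this hfin
      rw [Set.ncard_pair hne] at h3
      exact_mod_cast h3
    refine le_trans ?_ (T2 (dd t0))
    have : V ⊆ (UU S M ρ Y z Z m).filter fun t => dd t = dd t0 := by
      intro t ht
      rw [mem_filter]
      exact ⟨hV ht, hall t ht⟩
    exact_mod_cast Finset.card_le_card this

end SSE
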