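import Pool.Agent.SSE.Targets

/-!
# TAIL: consequences of `Thin`
-/

set_option autoImplicit false

open scoped BigOperators Classical
open Finset

namespace SSE

open SSC

namespace TAIL_

/-- the tail of the sum of the reciprocals of the square roots -/
theorem tail {S : Set ℕ} {σ C : ℝ} (hσ : σ < 1 / 2)
    (hC : ∀ I : Finset ℕ, (∀ p ∈ I, p ∈ S) → ∑ p ∈ I, (p : ℝ) ^ (-σ) ≤ C)
    {x : ℝ} (hx : 1 ≤ x) (I : Finset ℕ) (hI : ∀ p ∈ I, p ∈ S ∧ x < (p : ℝ)) :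
    ∑ p ∈ I, 1 / Real.sqrt p ≤ C * x ^ (-(1 / 2 - σ)) := by
  have hx0 : 0 < x := by linarith
  have h1 : ∀ p ∈ I, 1 / Real.sqrt p ≤ (p : ℝ) ^ (-σ) * x ^ (-(1 / 2 - σ)) := by
    intro p hp
    have hp1 := (hI p hp).2
    have hp0 : (0 : ℝ) < p := by linarith
    have e1 : 1 / Real.sqrt p = (p : ℝ) ^ (-σ) * (p : ℝ) ^ (-(1 / 2 - σ)) := by
      rw [← Real.rpow_add hp0, Real.sqrt_eq_rpow, one_div, ← Real.rpow_neg hp0.le]
      congr 1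
      ring
    rw [e1]
    refine mul_le_mul_of_nonneg_left ?_ (Real.rpow_nonneg hp0.le _)
    exact Real.rpow_le_rpow_of_nonpos hx0 hp1.le (by linarith)
  calc ∑ p ∈ I, 1 / Real.sqrt p ≤ ∑ p ∈ I, (p : ℝ) ^ (-σ) * x ^ (-(1 / 2 - σ)) :=
        Finset.sum_le_sum h1
    _ = (∑ p ∈ I, (p : ℝ) ^ (-σ)) * x ^ (-(1 / 2 - σ)) := by rw [Finset.sum_mul]
    _ ≤ C * x ^ (-(1 / 2 - σ)) :=
        mul_le_mul_of_nonneg_right (hC I fun p hp => (hI p hp).1) (Real.rpow_nonneg hx0.le _)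

/-- the counting function -/
theorem count {S : Set ℕ} {σ C : ℝ} (hσ : 0 < σ) (hS : ∀ p ∈ S, p.Prime)
    (hC : ∀ I : Finset ℕ, (∀ p ∈ I, p ∈ S) → ∑ p ∈ I, (p : ℝ) ^ (-σ) ≤ C)
    {x : ℝ} (hx : 1 ≤ x) : NS S x ≤ C * x ^ σ := by
  have hx0 : 0 < x := by linarith
  have hfin : {p : ℕ | p ∈ S ∧ (p : ℝ) ≤ x}.Finite := by
    refine Set.Finite.subset (Set.finite_Iic ⌊x⌋₊) ?_
    rintro p ⟨-, hp⟩
    exact (Nat.le_floor_iff hx0.le).2 hp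
  have hmem : ∀ p, p ∈ hfin.toFinset ↔ p ∈ S ∧ (p : ℝ) ≤ x := by
    intro p
    rw [Set.Finite.mem_toFinset, Set.mem_ofPred_eq]
  have h0 : NS S x = ∑ p ∈ hfin.toFinset, (1 : ℝ) := by
    unfold NS
    rw [Set.ncard_eq_toFinset_card _ hfin, Finset.sum_const, nsmul_eq_mul, mul_one]
  rw [h0]
  calc ∑ p ∈ hfin.toFinset, (1 : ℝ) ≤ ∑ p ∈ hfin.toFinset, (p : ℝ) ^ (-σ) * x ^ σ := by
        refine Finset.sum_le_sum fun p hp => ?_
        obtain ⟨hpS, hpx⟩ := (hmem p).1 hp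
        have hp0 : (0 : ℝ) < p := by exact_mod_cast (hS p hpS).pos
        have e1 : (p : ℝ) ^ (-σ) * (p : ℝ) ^ σ = 1 := by
          rw [← Real.rpow_add hp0, neg_add_cancel, Real.rpow_zero]
        rw [← e1]
        exact mul_le_mul_of_nonneg_left (Real.rpow_le_rpow hp0.le hpx hσ.le)
          (Real.rpow_nonneg hp0.le _)
    _ = (∑ p ∈ hfin.toFinset, (p : ℝ) ^ (-σ)) * x ^ σ := by rw [Finset.sum_mul]
    _ ≤ C * x ^ σ :=
        mul_le_mul_of_nonneg_right (hC _ fun p hp => ((hmem p).1 hp).1) (Real.rpow_nonneg hx0.le _)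

end TAIL_

open TAIL_ in
theorem p_TAIL : T_TAIL := by
  intro S σ hT hS
  obtain ⟨hσ0, hσ, C, hC0, hC⟩ := hT
  refine ⟨fun η hη => ?_, C, hC0, fun x hx => ⟨count hσ0 hS hC hx, fun I hI => tail hσ hC hx I hI⟩⟩
  have h1 : Filter.Tendsto (fun x : ℝ => C * x ^ (-(1 / 2 - σ))) Filter.atTop (nhds (C * 0)) :=
    (tendsto_rpow_neg_atTop (by linarith)).const_mul C
  rw [mul_zero] at h1
  obtain ⟨P, hP1, hP2⟩ := ((h1.eventually_le_const hη).and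
    (Filter.eventually_ge_atTop (1 : ℝ))).exists
  exact ⟨P, fun I hI => (tail hσ hC hP2 I hI).trans hP1⟩

end SSE
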