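import Pool.Agent.SSE.Targets

/-! # SSE, target THN: summability from the counting function -/

set_option autoImplicit false

open scoped BigOperators Classical
open Finset

namespace SSE

open SSC

namespace THN_

lemma fin (S : Set ℕ) (x : ℝ) : {p : ℕ | p ∈ S ∧ (p : ℝ) ≤ x}.Finite := by
  refine Set.Finite.subset (Set.finite_Iic ⌊x⌋₊) ?_
  rintro p ⟨-, hp⟩
  exact Nat.le_floor hp

/-- the rank of `p` in `S` -/
noncomputable def rk (S : Set ℕ) (p : ℕ) : ℕ := {q : ℕ | q ∈ S ∧ (q : ℝ) ≤ (p : ℝ)}.ncard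

lemma rk_eq (S : Set ℕ) (p : ℕ) : ((rk S p : ℕ) : ℝ) = NS S p := rfl

lemma rk_lt {S : Set ℕ} {p q : ℕ} (hq : q ∈ S) (h : p < q) : rk S p < rk S q := by
  unfold rk
  apply Set.ncard_lt_ncard _ (fin S q)
  refine ⟨fun r hr => ⟨hr.1, hr.2.trans (by exact_mod_cast h.le)⟩, fun h1 => ?_⟩
  have h2 : q ∈ {r : ℕ | r ∈ S ∧ (r : ℝ) ≤ (p : ℝ)} := h1 ⟨hq, le_rfl⟩
  have h3 : (q : ℝ) ≤ p := h2.2
  have h4 : q ≤ p := by exact_mod_cast h3
  omega

lemma rk_pos {S : Set ℕ} {p : ℕ} (hp : p ∈ S) : 1 ≤ rk S p := by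
  unfold rk
  have h : 0 < {q : ℕ | q ∈ S ∧ (q : ℝ) ≤ (p : ℝ)}.ncard := by
    rw [Set.ncard_pos (fin S p)]
    exact ⟨p, hp, le_rfl⟩
  exact h

lemma rk_inj {S : Set ℕ} {p q : ℕ} (hp : p ∈ S) (hq : q ∈ S) (h : rk S p = rk S q) : p = q := by
  rcases lt_trichotomy p q with h1 | h1 | h1
  · exact absurd h (rk_lt hq h1).ne
  · exact h1
  · exact absurd h (rk_lt hp h1).ne'

/-- the main case -/
lemma main (S : Set ℕ) (α σ x₁ : ℝ) (hα : 0 < α) (hσ : α < σ) (hx₁ : 1 ≤ x₁)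
    (hN : ∀ x : ℝ, x₁ ≤ x → NS S x ≤ x ^ α) :
    ∃ C : ℝ, 0 < C ∧ ∀ I : Finset ℕ, (∀ p ∈ I, p ∈ S) → ∑ p ∈ I, (p : ℝ) ^ (-σ) ≤ C := by
  have hσ0 : 0 < σ := hα.trans hσ
  have hs : Summable fun n : ℕ => (n : ℝ) ^ (-(σ / α)) := by
    rw [Real.summable_nat_rpow]
    have : 1 < σ / α := by rwa [one_lt_div hα]
    linarith
  refine ⟨x₁ + 1 + ∑' n : ℕ, (n : ℝ) ^ (-(σ / α)), ?_, fun I hI => ?_⟩
  · have : 0 ≤ ∑' n : ℕ, (n : ℝ) ^ (-(σ / α)) := tsum_nonneg fun n => by positivity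
    linarith
  rw [← Finset.sum_filter_add_sum_filter_not I (fun p : ℕ => (p : ℝ) < x₁)]
  apply add_le_add
  · calc ∑ p ∈ I.filter (fun p : ℕ => (p : ℝ) < x₁), (p : ℝ) ^ (-σ)
        ≤ ∑ p ∈ I.filter (fun p : ℕ => (p : ℝ) < x₁), (1 : ℝ) := by
          apply Finset.sum_le_sum
          intro p _
          rcases Nat.eq_zero_or_pos p with h0 | h0
          · subst h0
            rw [Nat.cast_zero, Real.zero_rpow (by linarith)]
            norm_num
          · exact Real.rpow_le_one_of_one_le_of_nonpos (by exact_mod_cast h0) (by linarith)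
      _ = ((I.filter (fun p : ℕ => (p : ℝ) < x₁)).card : ℝ) := by simp
      _ ≤ ((Finset.range (⌊x₁⌋₊ + 1)).card : ℝ) := by
          have : (I.filter (fun p : ℕ => (p : ℝ) < x₁)).card ≤
              (Finset.range (⌊x₁⌋₊ + 1)).card := by
            apply Finset.card_le_card
            intro p hp
            rw [Finset.mem_filter] at hp
            rw [Finset.mem_range]
            have := Nat.le_floor hp.2.le
            omega
          exact_mod_cast this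
      _ ≤ x₁ + 1 := by
          rw [Finset.card_range]
          push_cast
          have := Nat.floor_le (show 0 ≤ x₁ by linarith)
          linarith
  · have hpt : ∀ p ∈ I.filter (fun p : ℕ => ¬ (p : ℝ) < x₁),
        (p : ℝ) ^ (-σ) ≤ ((rk S p : ℕ) : ℝ) ^ (-(σ / α)) := by
      intro p hp
      rw [Finset.mem_filter, not_lt] at hp
      have hpS := hI p hp.1
      have hp1 : (1 : ℝ) ≤ p := hx₁.trans hp.2
      have h1 : ((rk S p : ℕ) : ℝ) ≤ (p : ℝ) ^ α := by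
        rw [rk_eq]
        exact hN p hp.2
      have h2 : (1 : ℝ) ≤ ((rk S p : ℕ) : ℝ) := by exact_mod_cast rk_pos hpS
      have h3 : (p : ℝ) ^ (-σ) = ((p : ℝ) ^ α) ^ (-(σ / α)) := by
        rw [← Real.rpow_mul (by linarith)]
        congr 1
        field_simp
      rw [h3]
      exact Real.rpow_le_rpow_of_nonpos (by linarith) h1 (by
        have : 0 < σ / α := by positivity
        linarith)
    calc ∑ p ∈ I.filter (fun p : ℕ => ¬ (p : ℝ) < x₁), (p : ℝ) ^ (-σ)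
        ≤ ∑ p ∈ I.filter (fun p : ℕ => ¬ (p : ℝ) < x₁), ((rk S p : ℕ) : ℝ) ^ (-(σ / α)) :=
          Finset.sum_le_sum hpt
      _ = ∑ n ∈ (I.filter (fun p : ℕ => ¬ (p : ℝ) < x₁)).image (rk S), (n : ℝ) ^ (-(σ / α)) := by
          rw [Finset.sum_image]
          intro p hp q hq h
          rw [Finset.mem_coe, Finset.mem_filter] at hp hq
          exact rk_inj (hI p hp.1) (hI q hq.1) h
      _ ≤ _ := hs.sum_le_tsum _ fun n _ => by positivity

end THN_

theorem p_THN : T_THN := by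
  intro S ε hε _ hx
  obtain ⟨x₀, hx₀⟩ := hx
  set δ : ℝ := min ε (1 / 4) with hδ
  have hδ0 : 0 < δ := lt_min hε (by norm_num)
  have hδ1 : δ ≤ ε := min_le_left _ _
  have hδ2 : δ ≤ 1 / 4 := min_le_right _ _
  refine ⟨1 / 2 - δ / 2, by linarith, by linarith, ?_⟩
  refine THN_.main S (1 / 2 - δ) (1 / 2 - δ / 2) (max x₀ 1) (by linarith) (by linarith)
    (le_max_right _ _) fun x hxx => ?_
  have h1 : x₀ ≤ x := (le_max_left _ _).trans hxx
  have h2 : 1 ≤ x := (le_max_right _ _).trans hxx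
  exact (hx₀ x h1).trans (Real.rpow_le_rpow_of_exponent_le h2 (by linarith))

end SSE
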