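import Pool.Agent.SSC.Targets

/-!
# MP_d74fca_nt, dichotomy (helper55)

If the set `S` of supersingular primes has at most `x ^ (1/2 - ε)` elements `≤ x` for all large
`x`, then it has at least `(log x) ^ (2 - ε')` elements `≤ x` for all large `x`.
-/

set_option autoImplicit false

open scoped BigOperators Classical
open Finset

namespace SSE

open SSC

/-- elementary symmetric function of the reciprocals -/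
noncomputable def em (A : Finset ℕ) (m : ℕ) : ℝ := ∑ T ∈ A.powersetCard m, ∏ l ∈ T, 1 / (l : ℝ)

/-- sum of the elements of `AA` -/
noncomputable def RR (S : Set ℕ) (Y : ℝ) : ℝ := ∑ a ∈ AA S Y, (a : ℝ)

/-- KI2 (from SSN.T_RED): refined counting of numbers killed by `p` -/
def T_KI2 : Prop := ∀ (p : ℕ) (F : Set ℕ), p.Prime → p ≠ 2 → (∀ D ∈ F, 0 < D ∧ Squarefree D) →
  Bin p F → ∀ T : ℝ, 1 ≤ T → 2 ≤ NS F T →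
  ∃ w : ℕ, 0 < w ∧ (w : ℝ) ≤ 2 * T ∧
    (∀ D ∈ F, (D : ℝ) ≤ T → ∀ l : ℕ, l.Prime → 2 < l → l ≠ p → l ∣ D → ¬ l ∣ w → SSN.ch p l = 1) ∧
    ∀ (N : ℕ) (H : ℝ), Squarefree N → (∀ l : ℕ, l.Prime → l ∣ N → 2 < l ∧ l ≠ p ∧ ¬ l ∣ w) →
      0 ≤ H → ∀ G : Finset ℕ, (∀ h ∈ G, N * h ∈ F ∧ ((N * h : ℕ) : ℝ) ≤ T ∧ (h : ℝ) ≤ H) →
      (G.card : ℝ) ≤ 2 ^ N.primeFactors.card * (1 + 7 * H / Real.sqrt p)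

/-- the error term -/
noncomputable def err (S : Set ℕ) (Y z Z : ℝ) (m : ℕ) : ℝ :=
  (4 * Real.log Y) ^ m + 8 * Y * Real.log Y * em (LL S z Z) m +
    8 * RR S Y * (Real.log Y / z) * em (LL S z Z) (m - 1)

/-- KT2 (from KI2, TUP): the tuples killed by one prime `p ≤ z` -/
def T_KT2 : Prop := ∀ (S : Set ℕ) (K : ℕ → ℕ → Prop) (M : ℕ) (ρ Y z Z : ℝ) (m : ℕ),
  Data S K M ρ → 32 ≤ Y → 3 ≤ z → z ≤ Z → Z ^ (m + 1) ≤ Y / 16 → ∀ p ∈ S, (p : ℝ) ≤ z →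
  ∀ V : Finset (ℕ × Finset ℕ × ℕ), V ⊆ UU S M ρ Y z Z m → (∀ t ∈ V, K (dd t) p) →
  (V.card : ℝ) ≤ err S Y z Z m +
    RR S Y * em ((LL S z Z).filter fun l => SSN.ch p l = 1) m * min 2 (30 * 2 ^ m / Real.sqrt p)

/-- the summability hypothesis -/
def Thin (S : Set ℕ) (σ : ℝ) : Prop := 0 < σ ∧ σ < 1 / 2 ∧ ∃ C : ℝ, 0 < C ∧ ∀ I : Finset ℕ,
  (∀ p ∈ I, p ∈ S) → ∑ p ∈ I, (p : ℝ) ^ (-σ) ≤ C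

/-- THN: summability from the counting function -/
def T_THN : Prop := ∀ (S : Set ℕ) (ε : ℝ), 0 < ε → (∀ p ∈ S, p.Prime) →
  (∃ x₀ : ℝ, ∀ x : ℝ, x₀ ≤ x → NS S x ≤ x ^ (1 / 2 - ε)) → ∃ σ : ℝ, Thin S σ

/-- TAIL: consequences of `Thin` -/
def T_TAIL : Prop := ∀ (S : Set ℕ) (σ : ℝ), Thin S σ → (∀ p ∈ S, p.Prime) →
  (∀ η : ℝ, 0 < η → ∃ P₀ : ℝ, ∀ I : Finset ℕ, (∀ p ∈ I, p ∈ S ∧ P₀ < (p : ℝ)) →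
    ∑ p ∈ I, 1 / Real.sqrt p ≤ η) ∧
  ∃ C : ℝ, 0 < C ∧ ∀ x : ℝ, 1 ≤ x → NS S x ≤ C * x ^ σ ∧
    ∀ I : Finset ℕ, (∀ p ∈ I, p ∈ S ∧ x < (p : ℝ)) →
      ∑ p ∈ I, 1 / Real.sqrt p ≤ C * x ^ (-(1 / 2 - σ))

/-- HL2 (from BRU, TAIL): many `h` -/
def T_HL2 : Prop := ∀ (S : Set ℕ) (σ : ℝ) (M : ℕ) (ρ : ℝ), Thin S σ → (∀ p ∈ S, p.Prime ∧ p ≠ 2) →
  0 < M → 1 < ρ → ρ ≤ 2 → ∃ c : ℝ, 0 < c ∧ ∀ m : ℕ, 1 ≤ m → ∃ Y₀ z₀ : ℝ, 3 ≤ z₀ ∧ ∀ (Y z Z : ℝ),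
    Y₀ ≤ Y → z₀ ≤ z → z ≤ Z → Z ^ (2 * m) ≤ Y / 16 →
    ∀ a ∈ AA S Y, ∀ T ∈ (LL S z Z).powersetCard m,
      c * ((a : ℝ) * ∏ l ∈ T, 1 / (l : ℝ)) ≤ ((HH S M ρ a (∏ l ∈ T, l)).card : ℝ)

/-- the parameters -/
noncomputable def z4 (Y : ℝ) : ℝ := Real.exp ((Real.log Y) ^ (1 / 4 : ℝ))

/-- the parameters -/
noncomputable def Z2 (Y : ℝ) : ℝ := Real.exp ((Real.log Y) ^ (1 / 2 : ℝ))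

/-- WW2 (from MER, CHI, TAIL): the sums over the primes `l` -/
def T_WW2 : Prop := ∀ (S : Set ℕ) (σ : ℝ), Thin S σ → (∀ p ∈ S, p.Prime ∧ p ≠ 2) →
  ∃ C : ℝ, 0 < C ∧ ∀ G : ℝ, ∃ Y₀ : ℝ, ∀ Y : ℝ, Y₀ ≤ Y →
    G ≤ ∑ l ∈ LL S (z4 Y) (Z2 Y), 1 / (l : ℝ) ∧
    ∀ p ∈ S, (p : ℝ) ≤ z4 Y →
      2 * ∑ l ∈ (LL S (z4 Y) (Z2 Y)).filter (fun l => SSN.ch p l = 1), 1 / (l : ℝ) ≤
        (∑ l ∈ LL S (z4 Y) (Z2 Y), 1 / (l : ℝ)) + C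

/-- AS2 (from KT2, KIL, TUP): all killed tuples -/
def T_AS2 : Prop := ∀ (S : Set ℕ) (K : ℕ → ℕ → Prop) (M : ℕ) (ρ ε Y z Z : ℝ) (m : ℕ),
  Data S K M ρ → 32 ≤ Y → 3 ≤ z → z ≤ Z → Z ^ (m + 1) ≤ Y / 16 → 0 < ε →
  (∀ t ∈ UU S M ρ Y z Z m, ∃ p ∈ S, ¬ p ∣ dd t ∧ K (dd t) p ∧
    (p : ℝ) ≤ Real.exp ((2 * Y ^ 2) ^ (1 / 2 + ε))) →
  ((UU S M ρ Y z Z m).card : ℝ) ≤
    (∑ p ∈ (Icc 1 ⌊z⌋₊).filter (fun p : ℕ => p ∈ S), (err S Y z Z m +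
      RR S Y * em ((LL S z Z).filter fun l => SSN.ch p l = 1) m *
        min 2 (30 * 2 ^ m / Real.sqrt p))) +
    (∑ p ∈ (Icc 1 ⌊16 * Y ^ 4⌋₊).filter (fun p : ℕ => p ∈ S ∧ z < (p : ℝ)),
      (4 * Real.log Y) ^ m * (1 + 14 * Y ^ 2 / Real.sqrt p)) +
    (4 * Real.log Y) ^ m * NS S (Real.exp ((2 * Y ^ 2) ^ (1 / 2 + ε)))

/-- DI2 (from everything) -/
def T_DI2 : Prop := ∀ (S : Set ℕ) (K : ℕ → ℕ → Prop) (M : ℕ) (ρ : ℝ), Data S K M ρ →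
  ∀ ε : ℝ, 0 < ε → (∃ x₀ : ℝ, ∀ x : ℝ, x₀ ≤ x → NS S x ≤ x ^ (1 / 2 - ε)) →
  ∀ ε' : ℝ, 0 < ε' → ∃ x₁ : ℝ, ∀ x : ℝ, x₁ ≤ x → (Real.log x) ^ (2 - ε') ≤ NS S x

end SSE
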