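import Pool.Agent.SSE.Targets
import Pool.Agent.SSC.WWW

/-! WW2: the sums over the primes `l` (adaptation of `SSC.WWW`). -/

set_option autoImplicit false

open scoped BigOperators Classical
open Finset

namespace SSE

open SSC SSC.WWW_

theorem p_WW2 (h1 : SSC.T_MER) (h2 : SSC.T_CHI) (h3 : T_TAIL) : T_WW2 := by
  obtain ⟨C1, hC1, hM⟩ := h1
  obtain ⟨C2, hC2, hX⟩ := h2
  intro S σ hT hS
  obtain ⟨hη, -⟩ := h3 S σ hT (fun p hp => (hS p hp).1)
  obtain ⟨P₀, hP₀⟩ := hη 1 one_pos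
  refine ⟨1 + 2 * C1 + C2, by linarith, ?_⟩
  intro G
  set Q : ℝ := max 3 P₀ with hQ
  have hQ3 : 3 ≤ Q := le_max_left _ _
  have hQpos : 0 < Q := by linarith
  have hlQ : 0 ≤ Real.log Q := Real.log_nonneg (by linarith)
  refine ⟨Real.exp (max 1 (max ((Real.log Q) ^ 4) (Real.exp (4 * (G + 2 * C1 + 1))))), ?_⟩
  intro Y hY
  have hYpos : 0 < Y := lt_of_lt_of_le (Real.exp_pos _) hY
  set L : ℝ := Real.log Y with hL
  have hLmax : max 1 (max ((Real.log Q) ^ 4) (Real.exp (4 * (G + 2 * C1 + 1)))) ≤ L :=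
    (Real.le_log_iff_exp_le hYpos).mpr hY
  have hL1 : 1 ≤ L := (le_max_left _ _).trans hLmax
  have hL2 : (Real.log Q) ^ 4 ≤ L := (le_max_left _ _).trans ((le_max_right _ _).trans hLmax)
  have hL3 : Real.exp (4 * (G + 2 * C1 + 1)) ≤ L :=
    (le_max_right _ _).trans ((le_max_right _ _).trans hLmax)
  have hLpos : 0 < L := by linarith
  have hG : 4 * (G + 2 * C1 + 1) ≤ Real.log L := (Real.le_log_iff_exp_le hLpos).mpr hL3
  set z : ℝ := z4 Y with hz
  set Z : ℝ := Z2 Y with hZ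
  have hzQ : Q ≤ z := by
    have e1 : Real.log Q ≤ L ^ (1 / 4 : ℝ) := by
      have e2 : ((Real.log Q) ^ 4) ^ (1 / 4 : ℝ) ≤ L ^ (1 / 4 : ℝ) :=
        Real.rpow_le_rpow (by positivity) hL2 (by norm_num)
      have e3 : ((Real.log Q) ^ 4) ^ (1 / 4 : ℝ) = Real.log Q := by
        rw [← Real.rpow_natCast, ← Real.rpow_mul hlQ]
        norm_num
      rwa [e3] at e2
    calc Q = Real.exp (Real.log Q) := (Real.exp_log hQpos).symm
      _ ≤ Real.exp (L ^ (1 / 4 : ℝ)) := Real.exp_le_exp.mpr e1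
      _ = z := rfl
  have hz3 : 3 ≤ z := hQ3.trans hzQ
  have hzP : P₀ ≤ z := (le_max_right _ _).trans hzQ
  have hzZ : z ≤ Z := by
    rw [hz, hZ]
    exact Real.exp_le_exp.mpr (Real.rpow_le_rpow_of_exponent_le hL1 (by norm_num))
  have hlogz : Real.log z = L ^ (1 / 4 : ℝ) := by rw [hz, z4, Real.log_exp]
  have hlogZ : Real.log Z = L ^ (1 / 2 : ℝ) := by rw [hZ, Z2, Real.log_exp]
  have hllz : Real.log (Real.log z) = 1 / 4 * Real.log L := by
    rw [hlogz, Real.log_rpow hLpos]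
  have hllZ : Real.log (Real.log Z) = 1 / 2 * Real.log L := by
    rw [hlogZ, Real.log_rpow hLpos]
  have hdiff : Real.log (Real.log Z) - Real.log (Real.log z) = 1 / 4 * Real.log L := by
    rw [hllZ, hllz]; ring
  -- the sum over all primes
  set W0 : ℝ := ∑ l ∈ pri z Z, 1 / (l : ℝ) with hW0
  have hW0G : 1 / 4 * Real.log L - 2 * C1 ≤ W0 := by
    have e1 := hM z (by linarith)
    have e2 := hM Z (by linarith)
    have e3 := pri_split (u := 1) (z := z) (Z := Z) (by linarith) hzZ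
    rw [abs_le] at e1 e2
    rw [← hdiff]
    linarith [e1.1, e1.2, e2.1, e2.2]
  -- the elements of `S`
  have hSsum : ∑ l ∈ (pri z Z).filter (fun l => l ∈ S), 1 / (l : ℝ) ≤ 1 := by
    have e1 := hP₀ ((pri z Z).filter (fun l => l ∈ S)) (by
      intro l hl
      rw [mem_filter] at hl
      exact ⟨hl.2, lt_of_le_of_lt hzP (pri_mem hl.1).2.1⟩)
    refine le_trans ?_ e1
    refine Finset.sum_le_sum fun l hl => ?_
    have hl1 : (1 : ℝ) ≤ l := by
      have := (pri_mem (mem_filter.mp hl).1).1.one_lt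
      exact_mod_cast this.le
    have hs : 0 < Real.sqrt l := Real.sqrt_pos.mpr (by linarith)
    apply one_div_le_one_div_of_le hs
    rw [Real.sqrt_le_left (by linarith)]
    nlinarith
  have hLLW : (∑ l ∈ LL S z Z, 1 / (l : ℝ)) +
      ∑ l ∈ (pri z Z).filter (fun l => l ∈ S), 1 / (l : ℝ) = W0 := by
    rw [hW0, ← Finset.sum_filter_add_sum_filter_not (pri z Z) (fun l => l ∈ S), add_comm]
    rfl
  constructor
  · linarith
  · intro p hp hpz
    have hpp := (hS p hp).1
    have hchi := hX p z Z hpp.pos hpz hz3 hzZ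
    rw [hdiff] at hchi
    have f1 : 2 * ∑ l ∈ (LL S z Z).filter (fun l => SSN.ch p l = 1), 1 / (l : ℝ) =
        ∑ l ∈ (LL S z Z).filter (fun l => SSN.ch p l = 1), ((1 + (SSN.ch p l : ℝ)) / l) := by
      rw [Finset.mul_sum]
      refine Finset.sum_congr rfl fun l hl => ?_
      rw [mem_filter] at hl
      rw [hl.2]
      push_cast
      ring
    have f2 : ∑ l ∈ (LL S z Z).filter (fun l => SSN.ch p l = 1), ((1 + (SSN.ch p l : ℝ)) / l) ≤
        ∑ l ∈ pri z Z, ((1 + (SSN.ch p l : ℝ)) / l) := by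
      apply Finset.sum_le_sum_of_subset_of_nonneg
      · intro l hl
        exact (mem_filter.mp (mem_filter.mp hl).1).1
      · intro l _ _
        have := ch_ge p l
        have h0 : (0 : ℝ) ≤ l := Nat.cast_nonneg l
        exact div_nonneg (by linarith) h0
    linarith

end SSE
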