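import Pool.Agent.SSF.All
import Pool.Agent.SSE.Targets
import Pool.Agent.SSE.TAIL
import Pool.Agent.SSE.THN
import Pool.Agent.SSE.HL2
import Pool.Agent.SSE.WW2
import Pool.Agent.SSE.KI2
import Pool.Agent.SSE.KT2
import Pool.Agent.SSE.AS2
import Pool.Agent.SSE.DI2

/-!
# MP_d74fca_nt: the dichotomy, unconditional (helper55)
-/

set_option autoImplicit false

namespace SSE.All

open SSF.All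

theorem SSE_TAIL : SSE.T_TAIL :=
  SSE.p_TAIL

theorem SSE_THN : SSE.T_THN :=
  SSE.p_THN

theorem SSE_HL2 : SSE.T_HL2 :=
  SSE.p_HL2 SSC_BRU SSE_TAIL

theorem SSE_WW2 : SSE.T_WW2 :=
  SSE.p_WW2 SSC_MER SSC_CHI SSE_TAIL

theorem SSE_KI2 : SSE.T_KI2 :=
  SSE.p_KI2 SSN_RED

theorem SSE_KT2 : SSE.T_KT2 :=
  SSE.p_KT2 SSE_KI2 SSC_TUP

theorem SSE_AS2 : SSE.T_AS2 :=
  SSE.p_AS2 SSC_TUP SSC_KIL SSE_KT2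

theorem SSE_DI2 : SSE.T_DI2 :=
  SSE.p_DI2 SSE_THN SSE_TAIL SSE_HL2 SSE_WW2 SSE_AS2 SSC_ESY SSC_CHEB SSC_TUP

/-- the dichotomy for the supersingular primes of `y ^ 2 = x ^ 3 + A x + B` -/
theorem dichotomy (A B : ℤ) (hA : A ≠ 0) (hB : B ≠ 0) (hd : 4 * A ^ 3 + 27 * B ^ 2 ≠ 0) :
    (∀ ε : ℝ, 0 < ε → ∀ x₀ : ℝ, ∃ x : ℝ, x₀ ≤ x ∧ x ^ (1 / 2 - ε) < SSC.NS (SSF.SS A B) x) ∨
    (∀ ε : ℝ, 0 < ε → ∃ x₁ : ℝ, ∀ x : ℝ, x₁ ≤ x →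
      (Real.log x) ^ (2 - ε) ≤ SSC.NS (SSF.SS A B) x) := by
  obtain ⟨M, ρ, hD⟩ := SSF_DATA A B hA hB hd
  by_cases h : ∃ ε : ℝ, 0 < ε ∧ ∃ x₀ : ℝ, ∀ x : ℝ, x₀ ≤ x →
      SSC.NS (SSF.SS A B) x ≤ x ^ (1 / 2 - ε)
  · obtain ⟨ε, hε, h1⟩ := h
    exact Or.inr fun ε' hε' => SSE_DI2 _ _ M ρ hD ε hε h1 ε' hε'
  · push Not at h
    exact Or.inl fun ε hε x₀ => h ε hε x₀

end SSE.All
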